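import Pool.Agent.Lib_helper92.OW.Cs

/-!
# The reverse clone: the degrees in the neighbourhood of a low pair
-/

set_option autoImplicit false
set_option linter.unusedSectionVars false
set_option linter.unusedVariables false

open scoped Classical
open Finset
open Pool.Agent.O2 (PC Cb CrOn pr ms dg nd)
open Pool.Agent.O3 (con hit Clq)
open Pool.Agent.OW

namespace Pool.Agent.OW46

variable {V : Type}

theorem mem_cn {G : SimpleGraph V} {S : Finset V} {v x y : V} :
    y ∈ cn G S v x ↔ y = x ∨ (y ≠ v ∧ y ∈ S ∧ G.Adj x y) := by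
  unfold cn
  rw [mem_insert, mem_erase, mem_filter]

/-- in a clique all vertices get different colours -/
theorem clq_inj {K : ℕ} {G : SimpleGraph V} {S T : Finset V} (hT : T ⊆ S) (hc : Clq G T)
    {φ : V → Fin K} (hφ : PC G S φ) : Set.InjOn φ (T : Set V) := by
  intro a ha b hb hab
  by_contra hne
  exact hφ a (hT ha) b (hT hb) (hc a ha b hb hne) hab

/-- the reverse clone: `x` is low, `N[x] - v` is a clique `T`, `y ∈ T` is not adjacent to `v`;
`x` is replaced by a clone of `y` -/
theorem rev_not_cb {K : ℕ} {G : SimpleGraph V} {S : Finset V} (hn : ¬ Cb G S K) (hK : 0 < K)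
    {x v y : V} (hx : x ∈ S) (hv : v ∈ S) (hy : y ∈ S) (hxv : G.Adj x v) (hxy : G.Adj x y)
    (hyv : y ≠ v) (hvy : ¬ G.Adj v y) (hlx : dg G S x = K) (hc : Clq G (cn G S v x)) :
    ¬ Cb (clo G S x y) S K := by
  intro hcb
  obtain ⟨φ, hφ⟩ := (Pool.Agent.O2.cb_fin hK).1 hcb
  apply hn
  -- the colours of `N(x) - v`
  set T := (cn G S v x).erase x with hT
  have hTm : ∀ z, z ∈ T ↔ z ≠ v ∧ z ∈ S ∧ G.Adj x z := by
    intro z
    rw [hT, mem_erase, mem_cn]
    constructor
    · rintro ⟨h1, h2 | h2⟩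
      · exact absurd h2 h1
      · exact h2
    · intro h1
      exact ⟨h1.2.2.ne', Or.inr h1⟩
  have hTc : ∀ a ∈ T, ∀ b ∈ T, a ≠ b → G.Adj a b := fun a ha b hb =>
    hc a (mem_of_mem_erase ha) b (mem_of_mem_erase hb)
  have hTcard : T.card + 1 = K := by
    have h1 := cn_card (G := G) (S := S) hv hxv
    rw [hT, card_erase_of_mem (mem_cn.2 (Or.inl rfl)), h1, hlx]
    omega
  have hyT : y ∈ T := (hTm y).2 ⟨hyv, hy, hxy⟩
  -- edges of the clone graph
  have hadj : ∀ a b, a ≠ x → b ≠ x → ((clo G S x y).Adj a b ↔ G.Adj a b) :=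
    fun a b ha hb => clo_adj ha hb
  have hadjx : ∀ b, b ≠ x → ((clo G S x y).Adj x b ↔ b = y ∨ (b ∈ S ∧ G.Adj y b)) :=
    fun b hb => clo_adj_v hb
  have hTx : ∀ z ∈ T, z ≠ x := fun z hz => ((hTm z).1 hz).2.2.ne'
  have hvx : v ≠ x := hxv.ne'
  -- `x` has a colour that is not on `T`
  have h1 : ∀ z ∈ T, φ x ≠ φ z := by
    intro z hz
    obtain ⟨-, hzS, -⟩ := (hTm z).1 hz
    apply hφ x hx z hzS
    rw [hadjx z (hTx z hz)]
    by_cases hzy : z = y
    · exact Or.inl hzy
    · exact Or.inr ⟨hzS, hTc y hyT z hz (Ne.symm hzy)⟩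
  have hinj : Set.InjOn φ (T : Set V) := by
    intro a ha b hb hab
    by_contra hne
    exact hφ a ((hTm a).1 ha).2.1 b ((hTm b).1 hb).2.1
      ((hadj a b (hTx a ha) (hTx b hb)).2 (hTc a ha b hb hne)) hab
  -- every colour is the colour of `x` or is on `T`
  have hall : ∀ i : Fin K, i = φ x ∨ ∃ z ∈ T, φ z = i := by
    have h2 : (insert (φ x) (T.image φ)) = univ := by
      apply eq_univ_of_card
      rw [Fintype.card_fin, card_insert_of_notMem, card_image_of_injOn hinj, hTcard]
      intro h3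
      obtain ⟨z, hz, h4⟩ := mem_image.1 h3
      exact h1 z hz h4.symm
    intro i
    have h3 : i ∈ insert (φ x) (T.image φ) := by rw [h2]; exact mem_univ _
    rcases mem_insert.1 h3 with h4 | h4
    · exact Or.inl h4
    · exact Or.inr (mem_image.1 h4)
  by_cases hvc : φ v = φ x
  · -- exchange
    apply Pool.Agent.O2.cb_of_pc (φ := fun z => if z = y then φ x else if z = x then φ y else φ z)
    have key : ∀ a ∈ S, ∀ b ∈ S, G.Adj a b → a = y → b ≠ y →
        φ x ≠ (if b = x then φ y else φ b) := by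
      intro a ha b hb hab h2 h3
      subst h2
      by_cases hbx : b = x
      · rw [if_pos hbx]
        exact h1 a hyT
      · rw [if_neg hbx]
        apply hφ x hx b hb
        rw [hadjx b hbx]
        exact Or.inr ⟨hb, hab⟩
    have key2 : ∀ a ∈ S, ∀ b ∈ S, G.Adj a b → a = x → b ≠ y → b ≠ x → φ y ≠ φ b := by
      intro a ha b hb hab h2 h3 h4
      subst h2
      by_cases hbv : b = v
      · rw [hbv, hvc]
        exact (h1 y hyT).symm
      · have h5 : b ∈ T := (hTm b).2 ⟨hbv, hb, hab⟩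
        intro h6
        exact h3 (hinj (mem_coe.2 hyT) (mem_coe.2 h5) h6).symm
    intro a ha b hb hab
    by_cases h2 : a = y
    · by_cases h3 : b = y
      · rw [h2, h3] at hab; exact absurd hab G.irrefl
      · simp only [h2, h3, if_true, if_false]
        exact key a ha b hb hab h2 h3
    · by_cases h3 : b = y
      · simp only [h2, h3, if_true, if_false]
        exact (key b hb a ha hab.symm h3 h2).symm
      · simp only [h2, h3, if_false]
        by_cases h4 : a = x
        · by_cases h5 : b = x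
          · rw [h4, h5] at hab; exact absurd hab G.irrefl
          · simp only [h4, h5, if_true, if_false]
            exact key2 a ha b hb hab h4 h3 h5
        · by_cases h5 : b = x
          · simp only [h4, h5, if_true, if_false]
            exact (key2 b hb a ha hab.symm h5 h2 h4).symm
          · simp only [h4, h5, if_false]
            exact hφ a ha b hb ((hadj a b h4 h5).2 hab)
  · -- the same colouring works
    apply Pool.Agent.O2.cb_of_pc (φ := φ)
    have key : ∀ b ∈ S, G.Adj x b → φ x ≠ φ b := by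
      intro b hb hab
      by_cases hbv : b = v
      · rw [hbv]; exact fun h2 => hvc h2.symm
      · exact h1 b ((hTm b).2 ⟨hbv, hb, hab⟩)
    intro a ha b hb hab
    by_cases h4 : a = x
    · rw [h4] at hab ⊢
      exact key b hb hab
    · by_cases h5 : b = x
      · rw [h5] at hab ⊢
        exact (key a ha hab.symm).symm
      · exact hφ a ha b hb ((hadj a b h4 h5).2 hab)

/-- the reverse clone: the degree of `y` -/
theorem rev_deg {K : ℕ} {β : ℕ → ℤ} {G : SimpleGraph V} {S : Finset V} (h : CrOn G S K)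
    (ih : IH K β S.card) (hK : 0 < K)
    (hY : ∀ R ⊆ S, R ≠ S → K + 1 ≤ R.card → 5 ≤ Yy G K β R)
    {x v y : V} (hx : x ∈ S) (hv : v ∈ S) (hy : y ∈ S) (hxv : G.Adj x v) (hxy : G.Adj x y)
    (hyv : y ≠ v) (hvy : ¬ G.Adj v y) (hlx : dg G S x = K) (hlv : dg G S v = K)
    (hc : Clq G (cn G S v x)) : K + 2 ≤ dg G S y := by
  by_contra hlt
  have hnc := rev_not_cb h.1 hK hx hv hy hxv hxy hyv hvy hlx hc
  obtain ⟨T, hTS, hT⟩ := Pool.Agent.O2.exists_crOn hnc
  have hvx : v ≠ x := hxv.ne'
  -- `x` is in `T`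
  have hxT : x ∈ T := by
    by_contra hxT
    have h1 : Cb G T K := h.sub hTS (fun e => hxT (e ▸ hx))
    apply hT.1
    obtain ⟨φ, hφ⟩ := (Pool.Agent.O2.cb_fin hK).1 h1
    apply Pool.Agent.O2.cb_of_pc (φ := φ)
    intro a ha b hb hab
    exact hφ a ha b hb
      ((clo_adj (ne_of_mem_of_not_mem ha hxT) (ne_of_mem_of_not_mem hb hxT)).1 hab)
  -- `v` is not in `T`
  have hvT : v ∉ T := by
    intro hvT
    have h1 := hT.dg_ge hvT
    have h2 : dg (clo G S x y) T v + 1 ≤ dg G S v := by
      unfold dg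
      apply Nat.succ_le_of_lt
      apply card_lt_card
      refine ⟨fun z hz => ?_, fun hss => ?_⟩
      · obtain ⟨hz1, hz2⟩ := mem_filter.1 hz
        by_cases hzx : z = x
        · exact mem_filter.2 ⟨hTS hz1, hzx ▸ hxv.symm⟩
        · exact mem_filter.2 ⟨hTS hz1, (clo_adj hvx hzx).1 hz2⟩
      · have h3 := (mem_filter.1 (hss (mem_filter.2 ⟨hx, hxv.symm⟩))).2
        rcases (clo_adj_v hvx).1 h3.symm with h4 | ⟨-, h4⟩
        · exact hyv h4.symm
        · exact hvy h4.symm
    omega
  have hTne : T ≠ S := fun e => hvT (e ▸ hv)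
  have hTlt : T.card < S.card := card_lt_card (hTS.ssubset_of_ne hTne)
  have hTc := hT.card_ge
  have h1 := ih V (clo G S x y) T hT hTlt
  set W := T.erase x with hW
  have hxW : x ∉ W := notMem_erase x T
  have hTW : T = insert x W := (insert_erase hxT).symm
  have hWS : W ⊆ S := (erase_subset _ _).trans hTS
  have h2 : pr G T T = pr G W W + 2 * dg G W x := by rw [hTW]; exact pr_erase hxW
  have h3 : pr (clo G S x y) T T = pr G W W + 2 * dg (clo G S x y) W x := by
    have h4 : pr (clo G S x y) T T =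
        pr (clo G S x y) W W + 2 * dg (clo G S x y) W x := by rw [hTW]; exact pr_erase hxW
    rw [h4, clo_pr hxW]
  -- the degree of `x` in `T` in the clone graph
  have h4 : K ≤ dg (clo G S x y) W x := by
    have h5 := hT.dg_ge hxT
    rwa [← Pool.Agent.O2.dg_erase_self] at h5
  have h5 : dg (clo G S x y) W x = (W ∩ cn G S x y).card := clo_dg hxW
  have h6 : (cn G S x y).card = dg G S y := cn_card hx hxy.symm
  -- the degree in `G`
  have h7 : dg (clo G S x y) W x ≤ dg G W x + 2 := by
    rw [h5]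
    -- the vertices of `N(x) - v`
    set Q := (cn G S v x).erase x with hQ
    have hQm : ∀ z, z ∈ Q ↔ z ≠ v ∧ z ∈ S ∧ G.Adj x z := by
      intro z
      rw [hQ, mem_erase, mem_cn]
      constructor
      · rintro ⟨h1, h2 | h2⟩
        · exact absurd h2 h1
        · exact h2
      · intro h1
        exact ⟨h1.2.2.ne', Or.inr h1⟩
    have hQc : Q.card + 1 = K := by
      have h1 := cn_card (G := G) (S := S) hv hxv
      rw [hQ, card_erase_of_mem (mem_cn.2 (Or.inl rfl)), h1, hlx]
      omega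
    have hyQ : y ∈ Q := (hQm y).2 ⟨hyv, hy, hxy⟩
    have hQsub : Q ⊆ cn G S x y := by
      intro z hz
      obtain ⟨h8, h9, h10⟩ := (hQm z).1 hz
      rw [mem_cn]
      by_cases hzy : z = y
      · exact Or.inl hzy
      · exact Or.inr ⟨h10.ne', h9, hc y (mem_of_mem_erase hyQ) z (mem_of_mem_erase hz)
          (Ne.symm hzy)⟩
    have h8 : (Q ∩ W).card ≤ dg G W x := by
      unfold dg
      apply card_le_card
      intro z hz
      obtain ⟨h9, h10⟩ := mem_inter.1 hz
      exact mem_filter.2 ⟨h10, ((hQm z).1 h9).2.2⟩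
    have h9 : W ∩ cn G S x y ⊆ (Q ∩ W) ∪ (cn G S x y \ Q) := by
      intro z hz
      obtain ⟨h10, h11⟩ := mem_inter.1 hz
      by_cases hzQ : z ∈ Q
      · exact mem_union_left _ (mem_inter.2 ⟨hzQ, h10⟩)
      · exact mem_union_right _ (mem_sdiff.2 ⟨h11, hzQ⟩)
    have h10 := (card_le_card h9).trans (card_union_le _ _)
    have h11 : (cn G S x y \ Q).card = dg G S y - Q.card := by
      rw [card_sdiff_of_subset hQsub, h6]
    omega
  have h8 : df G K T ≤ β (T.card - 1) + 4 := by
    unfold df at h1 ⊢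
    rw [h3] at h1
    rw [h2]
    push_cast at h1 ⊢
    have h9 : (dg (clo G S x y) W x : ℤ) ≤ dg G W x + 2 := by exact_mod_cast h7
    linarith
  have h9 := hY T hTS hTne hTc
  unfold Yy at h9
  linarith

/-- Lemma A, the field `c5` -/
theorem c5_of {K : ℕ} {β : ℕ → ℤ} {G : SimpleGraph V} {S : Finset V} (h : CrOn G S K)
    (ih : IH K β S.card) (hK : 0 < K)
    (hY : ∀ R ⊆ S, R ≠ S → K + 1 ≤ R.card → 5 ≤ Yy G K β R)
    (c3 : ∀ x ∈ S, dg G S x = K → ∀ v ∈ S, G.Adj x v → ∀ v' ∈ S, G.Adj x v' → v ≠ v' →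
      Clq G (cn G S v x) → Clq G (cn G S v' x) → False) :
    ∀ x ∈ S, dg G S x = K → ∀ v ∈ S, dg G S v = K → G.Adj x v →
    (tws G S x).card = 0 → (tws G S v).card = 0 →
    Clq G (cn G S v x) → Clq G (cn G S x v) →
    ∀ y ∈ S, G.Adj x y → y ≠ v → K + 2 ≤ dg G S y := by
  intro x hx hlx v hv hlv hxv htx htv hc hc' y hy hxy hyv
  by_cases hvy : G.Adj v y
  swap
  · exact rev_deg h ih hK hY hx hv hy hxv hxy hyv hvy hlx hlv hc
  by_contra hlt
  have hnt : ¬ Tw G S x v := by
    intro ht
    have : v ∈ tws G S x := mem_filter.2 ⟨hv, hxv.ne', ht⟩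
    rw [card_eq_zero.1 htx] at this
    exact notMem_empty _ this
  have hkT : (cn G S v x).card = K := (cn_card hv hxv).trans hlx
  have hkT' : (cn G S x v).card = K := (cn_card hx hxv.symm).trans hlv
  -- the members of `T` not adjacent to `v`
  set N := (cn G S v x).filter fun p => ¬ G.Adj v p with hN
  have hNm : ∀ p, p ∈ N ↔ p ≠ x ∧ p ≠ v ∧ p ∈ S ∧ G.Adj x p ∧ ¬ G.Adj v p := by
    intro p
    rw [hN, mem_filter, mem_cn]
    constructor
    · rintro ⟨h1 | ⟨h1, h2, h3⟩, h4⟩
      · exact absurd (h1 ▸ hxv.symm) h4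
      · exact ⟨h3.ne', h1, h2, h3, h4⟩
    · rintro ⟨h1, h2, h3, h4, h5⟩
      exact ⟨Or.inr ⟨h2, h3, h4⟩, h5⟩
  have hyT : y ∈ cn G S v x := mem_cn.2 (Or.inr ⟨hyv, hy, hxy⟩)
  have hyT' : y ∈ cn G S x v := mem_cn.2 (Or.inr ⟨hxy.ne', hy, hvy⟩)
  have hxT : x ∈ cn G S v x := mem_cn.2 (Or.inl rfl)
  have hvT' : v ∈ cn G S x v := mem_cn.2 (Or.inl rfl)
  -- `N` has at most one element
  have hN1 : N.card ≤ 1 := by
    -- common part
    have h1 : (cn G S v x ∩ cn G S x v).card + 1 + N.card = K := by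
      have h2 : cn G S v x = insert x ((cn G S v x ∩ cn G S x v) ∪ N) := by
        ext p
        rw [mem_insert, mem_union, mem_inter, hNm, mem_cn, mem_cn]
        constructor
        · rintro (h3 | ⟨h3, h4, h5⟩)
          · exact Or.inl h3
          · right
            by_cases h6 : G.Adj v p
            · exact Or.inl ⟨Or.inr ⟨h3, h4, h5⟩, Or.inr ⟨h5.ne', h4, h6⟩⟩
            · exact Or.inr ⟨h5.ne', h3, h4, h5, h6⟩
        · rintro (h3 | ⟨h3, -⟩ | ⟨h3, h4, h5, h6, h7⟩)
          · exact Or.inl h3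
          · exact h3
          · exact Or.inr ⟨h4, h5, h6⟩
      have h3 : Disjoint (cn G S v x ∩ cn G S x v) N := by
        rw [disjoint_left]
        intro p hp hpN
        obtain ⟨-, h4⟩ := mem_inter.1 hp
        obtain ⟨h5, h6, h7, h8, h9⟩ := (hNm p).1 hpN
        rcases mem_cn.1 h4 with h10 | ⟨-, -, h10⟩
        · exact h6 h10
        · exact h9 h10
      have h4 : x ∉ (cn G S v x ∩ cn G S x v) ∪ N := by
        rw [mem_union, mem_inter, hNm]
        rintro (⟨-, h5⟩ | ⟨h5, -⟩)
        · rcases mem_cn.1 h5 with h6 | ⟨h6, -⟩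
          · exact hxv.ne h6
          · exact h6 rfl
        · exact h5 rfl
      have h5 := congrArg card h2
      rw [card_insert_of_notMem h4, card_union_of_disjoint h3, hkT] at h5
      omega
    have h2 : (cn G S v x ∪ cn G S x v).card + (cn G S v x ∩ cn G S x v).card = K + K := by
      rw [card_union_add_card_inter, hkT, hkT']
    have h3 : (cn G S v x ∪ cn G S x v).card ≤ dg G S y + 1 := by
      have h4 : (cn G S v x ∪ cn G S x v).erase y ⊆ S.filter fun z => G.Adj y z := by
        intro z hz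
        obtain ⟨hzy, hz'⟩ := mem_erase.1 hz
        rcases mem_union.1 hz' with h5 | h5
        · refine mem_filter.2 ⟨?_, hc y hyT z h5 (Ne.symm hzy)⟩
          rcases mem_cn.1 h5 with rfl | h6
          · exact hx
          · exact h6.2.1
        · refine mem_filter.2 ⟨?_, hc' y hyT' z h5 (Ne.symm hzy)⟩
          rcases mem_cn.1 h5 with rfl | h6
          · exact hv
          · exact h6.2.1
      have h5 := card_le_card h4
      rw [card_erase_of_mem (mem_union_left _ hyT)] at h5
      have h6 : (S.filter fun z => G.Adj y z).card = dg G S y := rfl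
      omega
    omega
  -- `N` is not empty
  obtain ⟨a, ha⟩ : N.Nonempty := by
    rw [nonempty_iff_ne_empty]
    intro he
    apply hnt
    refine ⟨hxv, ?_⟩
    have hsub : (S.filter fun z => G.Adj x z).erase v ⊆ (S.filter fun z => G.Adj v z).erase x := by
      intro z hz
      obtain ⟨h1, h2⟩ := mem_erase.1 hz
      obtain ⟨h3, h4⟩ := mem_filter.1 h2
      refine mem_erase.2 ⟨h4.ne', mem_filter.2 ⟨h3, ?_⟩⟩
      by_contra h5
      have : z ∈ N := (hNm z).2 ⟨h4.ne', h1, h3, h4, h5⟩
      rw [he] at this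
      exact notMem_empty _ this
    have hcard : ((S.filter fun z => G.Adj v z).erase x).card ≤
        ((S.filter fun z => G.Adj x z).erase v).card := by
      have h1 : ((S.filter fun z => G.Adj v z).erase x).card = K - 1 := by
        rw [card_erase_of_mem (mem_filter.2 ⟨hx, hxv.symm⟩)]
        exact congrArg (fun n => n - 1) hlv
      have h2 : ((S.filter fun z => G.Adj x z).erase v).card = K - 1 := by
        rw [card_erase_of_mem (mem_filter.2 ⟨hv, hxv⟩)]
        exact congrArg (fun n => n - 1) hlx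
      rw [h1, h2]
    have heq := eq_of_subset_of_card_le hsub hcard
    intro c hc1 hcx hcv
    constructor
    · intro h1
      have : c ∈ (S.filter fun z => G.Adj v z).erase x := by
        rw [← heq]
        exact mem_erase.2 ⟨hcv, mem_filter.2 ⟨hc1, h1⟩⟩
      exact (mem_filter.1 (mem_of_mem_erase this)).2
    · intro h1
      have : c ∈ (S.filter fun z => G.Adj x z).erase v := by
        rw [heq]
        exact mem_erase.2 ⟨hcx, mem_filter.2 ⟨hc1, h1⟩⟩
      exact (mem_filter.1 (mem_of_mem_erase this)).2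
  obtain ⟨ha1, ha2, ha3, ha4, ha5⟩ := (hNm a).1 ha
  have huniq : ∀ p ∈ N, p = a := fun p hp => card_le_one.1 hN1 p hp a ha
  -- `N[x] - a` is a clique as well
  refine c3 x hx hlx v hv hxv a ha3 ha4 (Ne.symm ha2) hc ?_
  have hvadj : ∀ q ∈ cn G S a x, q ≠ v → G.Adj v q := by
    intro q hq hqv
    rcases mem_cn.1 hq with rfl | ⟨h1, h2, h3⟩
    · exact hxv.symm
    · by_contra h4
      exact h1 (huniq q ((hNm q).2 ⟨h3.ne', hqv, h2, h3, h4⟩))
  intro p hp q hq hpq
  by_cases hpv : p = v
  · rw [hpv]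
    exact hvadj q hq (fun e => hpq (hpv.trans e.symm))
  · by_cases hqv : q = v
    · rw [hqv]
      exact (hvadj p hp hpv).symm
    · apply hc p _ q _ hpq
      · rcases mem_cn.1 hp with h1 | ⟨h1, h2, h3⟩
        · exact mem_cn.2 (Or.inl h1)
        · exact mem_cn.2 (Or.inr ⟨hpv, h2, h3⟩)
      · rcases mem_cn.1 hq with h1 | ⟨h1, h2, h3⟩
        · exact mem_cn.2 (Or.inl h1)
        · exact mem_cn.2 (Or.inr ⟨hqv, h2, h3⟩)

end Pool.Agent.OW46
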