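import Pool.Agent.Lib_helper46.O2.L2

/-!
# Cuts of critical graphs, with an independent set of low vertices left out
-/

set_option autoImplicit false
set_option linter.unusedSectionVars false

open scoped Classical
open Finset
open Pool.Agent.O2 (PC Cb CrOn pr ms dg nd)

namespace Pool.Agent.OW46

variable {V : Type}

/-- at most `(K - 1)!` permutations map `X` onto `Y` -/
theorem perm_count {K : ℕ} (X Y : Finset (Fin K)) {x0 x1 : Fin K} (h0 : x0 ∈ X) (h1 : x1 ∉ X) :
    (univ.filter fun σ : Equiv.Perm (Fin K) => ∀ i, i ∈ X ↔ σ i ∈ Y).card * K ≤ K.factorial := by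
  set P := univ.filter fun σ : Equiv.Perm (Fin K) => ∀ i, i ∈ X ↔ σ i ∈ Y with hP
  have h01 : x0 ≠ x1 := fun h => h1 (h ▸ h0)
  have h2 : (P ×ˢ (univ : Finset (Fin K))).card ≤ (univ : Finset (Equiv.Perm (Fin K))).card := by
    apply card_le_card_of_injOn (fun q => if q.2 = x0 then q.1 else
      if q.2 ∈ X then q.1 * Equiv.swap x1 q.2 else q.1 * Equiv.swap x0 q.2)
    · intro q _; exact mem_coe.2 (mem_univ _)
    · rintro ⟨σ, j⟩ hσ ⟨σ', j'⟩ hσ' heq
      have hs : ∀ i, i ∈ X ↔ σ i ∈ Y := (mem_filter.1 (mem_product.1 (mem_coe.1 hσ)).1).2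
      have hs' : ∀ i, i ∈ X ↔ σ' i ∈ Y := (mem_filter.1 (mem_product.1 (mem_coe.1 hσ')).1).2
      simp only at heq
      by_cases hj : j = x0 <;> by_cases hj' : j' = x0
      · simp only [hj, hj', if_true] at heq
        rw [heq, hj, hj']
      · exfalso
        by_cases hx' : j' ∈ X
        · simp only [hj, hj', hx', if_true, if_false] at heq
          have h3 := congrArg (fun τ : Equiv.Perm (Fin K) => τ x1) heq
          simp only [Equiv.Perm.mul_apply, Equiv.swap_apply_left] at h3
          exact h1 ((hs x1).2 (h3 ▸ (hs' j').1 hx'))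
        · simp only [hj, hj', hx', if_true, if_false] at heq
          have h3 := congrArg (fun τ : Equiv.Perm (Fin K) => τ x0) heq
          simp only [Equiv.Perm.mul_apply, Equiv.swap_apply_left] at h3
          exact hx' ((hs' j').2 (h3 ▸ (hs x0).1 h0))
      · exfalso
        by_cases hx : j ∈ X
        · simp only [hj, hj', hx, if_true, if_false] at heq
          have h3 := congrArg (fun τ : Equiv.Perm (Fin K) => τ x1) heq
          simp only [Equiv.Perm.mul_apply, Equiv.swap_apply_left] at h3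
          exact h1 ((hs' x1).2 (h3.symm ▸ (hs j).1 hx))
        · simp only [hj, hj', hx, if_true, if_false] at heq
          have h3 := congrArg (fun τ : Equiv.Perm (Fin K) => τ x0) heq
          simp only [Equiv.Perm.mul_apply, Equiv.swap_apply_left] at h3
          exact hx ((hs j).2 (h3.symm ▸ (hs' x0).1 h0))
      · by_cases hx : j ∈ X <;> by_cases hx' : j' ∈ X
        · simp only [hj, hj', hx, hx', if_true, if_false] at heq
          by_cases hjj : j = j'
          · subst hjj
            have := mul_right_cancel heq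
            rw [this]
          · exfalso
            have h3 := congrArg (fun τ : Equiv.Perm (Fin K) => τ j) heq
            have hne : j ≠ x1 := fun h => h1 (h ▸ hx)
            simp only [Equiv.Perm.mul_apply, Equiv.swap_apply_right,
              Equiv.swap_apply_of_ne_of_ne hne hjj] at h3
            exact h1 ((hs x1).2 (h3.symm ▸ (hs' j).1 hx))
        · exfalso
          simp only [hj, hj', hx, hx', if_true, if_false] at heq
          have h3 := congrArg (fun τ : Equiv.Perm (Fin K) => τ x0) heq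
          simp only [Equiv.Perm.mul_apply, Equiv.swap_apply_left,
            Equiv.swap_apply_of_ne_of_ne h01 (Ne.symm hj)] at h3
          exact hx' ((hs' j').2 (h3 ▸ (hs x0).1 h0))
        · exfalso
          simp only [hj, hj', hx, hx', if_true, if_false] at heq
          have h3 := congrArg (fun τ : Equiv.Perm (Fin K) => τ x0) heq
          simp only [Equiv.Perm.mul_apply, Equiv.swap_apply_left,
            Equiv.swap_apply_of_ne_of_ne h01 (Ne.symm hj')] at h3
          exact hx ((hs j).2 (h3.symm ▸ (hs' x0).1 h0))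
        · simp only [hj, hj', hx, hx', if_false] at heq
          by_cases hjj : j = j'
          · subst hjj
            have := mul_right_cancel heq
            rw [this]
          · exfalso
            have h3 := congrArg (fun τ : Equiv.Perm (Fin K) => τ j) heq
            simp only [Equiv.Perm.mul_apply, Equiv.swap_apply_right,
              Equiv.swap_apply_of_ne_of_ne hj hjj] at h3
            exact hx ((hs' j).2 (h3 ▸ (hs x0).1 h0))
  rw [card_product, card_univ, card_univ, Fintype.card_fin, Fintype.card_perm,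
    Fintype.card_fin] at h2
  exact h2

/-- a cut `P | Q` of `S` minus the independent set `A` of low vertices: its edges and the vertices
of `A` with neighbours on both sides are at least `K` in number -/
theorem cut {G : SimpleGraph V} {S : Finset V} {K : ℕ} (hK : 2 ≤ K) (h : CrOn G S K)
    {A P Q : Finset V} (hA : ∀ a ∈ A, ∀ b ∈ A, ¬ G.Adj a b) (hAd : ∀ x ∈ A, dg G S x ≤ K)
    (hP : P.Nonempty) (hQ : Q.Nonempty) (hPQ : Disjoint P Q) (hPA : Disjoint P A)
    (hQA : Disjoint Q A) (hS : ∀ v, v ∈ S ↔ v ∈ A ∨ v ∈ P ∨ v ∈ Q) :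
    K ≤ pr G P Q + (A.filter fun x => (∃ p ∈ P, G.Adj x p) ∧ ∃ q ∈ Q, G.Adj x q).card := by
  have hK0 : 0 < K := by omega
  -- the two parts
  obtain ⟨q0, hq0⟩ := hQ
  obtain ⟨p0, hp0⟩ := hP
  have hdPQ : ∀ v, v ∈ P → v ∉ Q := fun v h1 h2 => disjoint_left.1 hPQ h1 h2
  have hdPA : ∀ v, v ∈ P → v ∉ A := fun v h1 h2 => disjoint_left.1 hPA h1 h2
  have hdQA : ∀ v, v ∈ Q → v ∉ A := fun v h1 h2 => disjoint_left.1 hQA h1 h2
  have hc1 : Cb G (P ∪ A.filter fun x => ¬ ∃ q ∈ Q, G.Adj x q) K := by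
    refine h.sub ?_ ?_
    · intro v hv
      rcases mem_union.1 hv with hv | hv
      · exact (hS v).2 (Or.inr (Or.inl hv))
      · exact (hS v).2 (Or.inl (mem_filter.1 hv).1)
    · intro he
      have h1 : q0 ∈ S := (hS q0).2 (Or.inr (Or.inr hq0))
      rw [← he] at h1
      rcases mem_union.1 h1 with h1 | h1
      · exact hdPQ _ h1 hq0
      · exact hdQA _ hq0 (mem_filter.1 h1).1
  have hc2 : Cb G (Q ∪ A.filter fun x => ¬ ∃ p ∈ P, G.Adj x p) K := by
    refine h.sub ?_ ?_
    · intro v hv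
      rcases mem_union.1 hv with hv | hv
      · exact (hS v).2 (Or.inr (Or.inr hv))
      · exact (hS v).2 (Or.inl (mem_filter.1 hv).1)
    · intro he
      have h1 : p0 ∈ S := (hS p0).2 (Or.inr (Or.inl hp0))
      rw [← he] at h1
      rcases mem_union.1 h1 with h1 | h1
      · exact hdPQ _ hp0 h1
      · exact hdPA _ hp0 (mem_filter.1 h1).1
  obtain ⟨φ, hφ⟩ := (Pool.Agent.O2.cb_fin hK0).1 hc1
  obtain ⟨ψ, hψ⟩ := (Pool.Agent.O2.cb_fin hK0).1 hc2
  set Am := A.filter fun x => (∃ p ∈ P, G.Adj x p) ∧ ∃ q ∈ Q, G.Adj x q with hAm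
  set E := (P ×ˢ Q).filter fun p => G.Adj p.1 p.2 with hE
  have hpr : pr G P Q = E.card := rfl
  let X : V → Finset (Fin K) := fun x => (P.filter fun p => G.Adj x p).image φ
  let Z : V → Finset (Fin K) := fun x => (Q.filter fun q => G.Adj x q).image ψ
  have hXZ : ∀ x ∈ A, (X x).card + (Z x).card ≤ K := by
    intro x hx
    have h1 : (X x).card ≤ dg G P x := card_image_le
    have h2 : (Z x).card ≤ dg G Q x := card_image_le
    have h3 : dg G P x + dg G Q x ≤ dg G S x := by
      rw [← Pool.Agent.O2.dg_union hPQ]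
      apply Pool.Agent.O2.dg_mono
      intro v hv
      rcases mem_union.1 hv with hv | hv
      · exact (hS v).2 (Or.inr (Or.inl hv))
      · exact (hS v).2 (Or.inr (Or.inr hv))
    have h4 := hAd x hx
    omega
  by_contra hcon
  push Not at hcon
  -- a good permutation
  have hgood : ∃ σ : Equiv.Perm (Fin K), (∀ e ∈ E, σ (φ e.1) ≠ ψ e.2) ∧
      ∀ x ∈ Am, ¬ ∀ i, i ∈ X x ↔ σ i ∈ (Z x)ᶜ := by
    by_contra hno
    push Not at hno
    let F1 : V × V → Finset (Equiv.Perm (Fin K)) := fun e =>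
      univ.filter fun σ => ∀ i, i ∈ ({φ e.1} : Finset (Fin K)) ↔ σ i ∈ ({ψ e.2} : Finset (Fin K))
    let F2 : V → Finset (Equiv.Perm (Fin K)) := fun x =>
      univ.filter fun σ => ∀ i, i ∈ X x ↔ σ i ∈ (Z x)ᶜ
    have h1 : (univ : Finset (Equiv.Perm (Fin K))) ⊆ E.biUnion F1 ∪ Am.biUnion F2 := by
      intro σ _
      by_cases h2 : ∀ e ∈ E, σ (φ e.1) ≠ ψ e.2
      · obtain ⟨x, hx, h3⟩ := hno σ h2
        exact mem_union_right _ (mem_biUnion.2 ⟨x, hx, mem_filter.2 ⟨mem_univ _, h3⟩⟩)
      · push Not at h2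
        obtain ⟨e, he, h3⟩ := h2
        refine mem_union_left _ (mem_biUnion.2 ⟨e, he, mem_filter.2 ⟨mem_univ _, fun i => ?_⟩⟩)
        rw [mem_singleton, mem_singleton, ← h3]
        exact ⟨fun h => by rw [h], fun h => σ.injective h⟩
    have h2 : K.factorial ≤ (E.biUnion F1 ∪ Am.biUnion F2).card := by
      have := card_le_card h1
      rwa [card_univ, Fintype.card_perm, Fintype.card_fin] at this
    have h3 : (E.biUnion F1 ∪ Am.biUnion F2).card ≤ ∑ e ∈ E, (F1 e).card + ∑ x ∈ Am, (F2 x).card :=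
      (card_union_le _ _).trans (add_le_add card_biUnion_le card_biUnion_le)
    have h4 : ∀ e ∈ E, (F1 e).card * K ≤ K.factorial := by
      intro e _
      have h5 : ∃ x1 : Fin K, x1 ∉ ({φ e.1} : Finset (Fin K)) := by
        by_contra h6
        push Not at h6
        have h7 : (univ : Finset (Fin K)) ⊆ {φ e.1} := fun i _ => h6 i
        have h8 := card_le_card h7
        rw [card_univ, Fintype.card_fin, card_singleton] at h8
        omega
      obtain ⟨x1, hx1⟩ := h5
      exact perm_count _ _ (mem_singleton_self _) hx1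
    have h5 : ∀ x ∈ Am, (F2 x).card * K ≤ K.factorial := by
      intro x hx
      obtain ⟨hxA, ⟨p, hp, hxp⟩, q, hq, hxq⟩ := mem_filter.1 hx
      have h6 : φ p ∈ X x := mem_image.2 ⟨p, mem_filter.2 ⟨hp, hxp⟩, rfl⟩
      have h7 : 0 < (Z x).card := card_pos.2 ⟨ψ q, mem_image.2 ⟨q, mem_filter.2 ⟨hq, hxq⟩, rfl⟩⟩
      have h8 := hXZ x hxA
      have h9 : ∃ x1 : Fin K, x1 ∉ X x := by
        by_contra h10
        push Not at h10
        have h11 : (univ : Finset (Fin K)) ⊆ X x := fun i _ => h10 i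
        have h12 := card_le_card h11
        rw [card_univ, Fintype.card_fin] at h12
        omega
      obtain ⟨x1, hx1⟩ := h9
      exact perm_count _ _ h6 hx1
    have h6 : (∑ e ∈ E, (F1 e).card) * K ≤ E.card * K.factorial := by
      rw [sum_mul, card_eq_sum_ones, sum_mul]
      exact sum_le_sum fun e he => by rw [one_mul]; exact h4 e he
    have h7 : (∑ x ∈ Am, (F2 x).card) * K ≤ Am.card * K.factorial := by
      rw [sum_mul, card_eq_sum_ones, sum_mul]
      exact sum_le_sum fun e he => by rw [one_mul]; exact h5 e he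
    have h8 : K.factorial * K ≤ (E.card + Am.card) * K.factorial := by
      calc K.factorial * K ≤ (∑ e ∈ E, (F1 e).card + ∑ x ∈ Am, (F2 x).card) * K :=
            Nat.mul_le_mul_right _ (h2.trans h3)
        _ ≤ _ := by rw [add_mul, add_mul]; exact add_le_add h6 h7
    rw [mul_comm] at h8
    have h9 := Nat.le_of_mul_le_mul_right h8 (Nat.factorial_pos K)
    rw [hpr] at hcon
    omega
  obtain ⟨σ, hσ1, hσ2⟩ := hgood
  have hfree : ∀ x ∈ Am, ∃ i : Fin K, (∀ p ∈ P, G.Adj x p → σ (φ p) ≠ i) ∧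
      ∀ q ∈ Q, G.Adj x q → ψ q ≠ i := by
    intro x hx
    by_contra h1
    push Not at h1
    have hxA : x ∈ A := (mem_filter.1 hx).1
    apply hσ2 x hx
    have h2 : (univ : Finset (Fin K)) ⊆ (X x).image σ ∪ Z x := by
      intro i _
      by_cases h3 : ∀ p ∈ P, G.Adj x p → σ (φ p) ≠ i
      · obtain ⟨q, hq, h4, h5⟩ := h1 i h3
        exact mem_union_right _ (mem_image.2 ⟨q, mem_filter.2 ⟨hq, h4⟩, h5⟩)
      · push Not at h3
        obtain ⟨p, hp, h4, h5⟩ := h3
        exact mem_union_left _ (mem_image.2 ⟨φ p, mem_image.2 ⟨p, mem_filter.2 ⟨hp, h4⟩, rfl⟩, h5⟩)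
    have h3 := card_le_card h2
    rw [card_univ, Fintype.card_fin] at h3
    have h4 := card_union_add_card_inter ((X x).image σ) (Z x)
    have h5 : ((X x).image σ).card ≤ (X x).card := card_image_le
    have h6 := hXZ x hxA
    have h7 : ((X x).image σ ∩ Z x).card = 0 := by omega
    have h8 : (X x).image σ ∩ Z x = ∅ := card_eq_zero.1 h7
    intro i
    rw [mem_compl]
    constructor
    · intro hi h9
      have h10 : σ i ∈ (X x).image σ ∩ Z x := mem_inter.2 ⟨mem_image_of_mem _ hi, h9⟩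
      rw [h8] at h10
      exact notMem_empty _ h10
    · intro hi
      rcases mem_union.1 (h2 (mem_univ (σ i))) with h9 | h9
      · obtain ⟨j, hj, hj'⟩ := mem_image.1 h9
        rwa [← σ.injective hj']
      · exact absurd h9 hi
  have hne : Nonempty (Fin K) := ⟨⟨0, hK0⟩⟩
  choose! g hg using hfree
  apply h.1
  apply Pool.Agent.O2.cb_of_pc (φ := fun v =>
    if v ∈ P ∪ A.filter (fun x => ¬ ∃ q ∈ Q, G.Adj x q) then σ (φ v)
    else if v ∈ Q ∪ A.filter (fun x => ¬ ∃ p ∈ P, G.Adj x p) then ψ v else g v)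
  -- the kinds of vertices
  have hk : ∀ v ∈ S, v ∉ P ∪ A.filter (fun x => ¬ ∃ q ∈ Q, G.Adj x q) →
      v ∉ Q ∪ A.filter (fun x => ¬ ∃ p ∈ P, G.Adj x p) → v ∈ Am := by
    intro v hv h1 h2
    rw [mem_union, not_or] at h1 h2
    have hvA : v ∈ A := by
      rcases (hS v).1 hv with h3 | h3 | h3
      · exact h3
      · exact absurd h3 h1.1
      · exact absurd h3 h2.1
    refine mem_filter.2 ⟨hvA, ?_, ?_⟩
    · by_contra h3
      exact h2.2 (mem_filter.2 ⟨hvA, h3⟩)
    · by_contra h3
      exact h1.2 (mem_filter.2 ⟨hvA, h3⟩)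
  have key : ∀ a ∈ S, ∀ b ∈ S, G.Adj a b →
      a ∈ P ∪ A.filter (fun x => ¬ ∃ q ∈ Q, G.Adj x q) →
      b ∉ P ∪ A.filter (fun x => ¬ ∃ q ∈ Q, G.Adj x q) →
      σ (φ a) ≠ (if b ∈ Q ∪ A.filter (fun x => ¬ ∃ p ∈ P, G.Adj x p) then ψ b else g b) := by
    intro a ha b hb hab h1 h2
    by_cases h3 : b ∈ Q ∪ A.filter (fun x => ¬ ∃ p ∈ P, G.Adj x p)
    · simp only [h3, if_true]
      rcases mem_union.1 h1 with h4 | h4 <;> rcases mem_union.1 h3 with h5 | h5
      · exact hσ1 (a, b) (mem_filter.2 ⟨mem_product.2 ⟨h4, h5⟩, hab⟩)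
      · exact absurd ⟨a, h4, hab.symm⟩ (mem_filter.1 h5).2
      · exact absurd ⟨b, h5, hab⟩ (mem_filter.1 h4).2
      · exact absurd hab (hA a (mem_filter.1 h4).1 b (mem_filter.1 h5).1)
    · simp only [h3, if_false]
      have h4 := hk b hb h2 h3
      have hbA : b ∈ A := (mem_filter.1 h4).1
      rcases mem_union.1 h1 with h5 | h5
      · exact (hg b h4).1 a h5 hab.symm
      · exact absurd hab (hA a (mem_filter.1 h5).1 b hbA)
  have key2 : ∀ a ∈ S, ∀ b ∈ S, G.Adj a b →
      a ∈ Q ∪ A.filter (fun x => ¬ ∃ p ∈ P, G.Adj x p) →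
      b ∈ Am → ψ a ≠ g b := by
    intro a ha b hb hab h1 h4
    have hbA : b ∈ A := (mem_filter.1 h4).1
    rcases mem_union.1 h1 with h5 | h5
    · exact (hg b h4).2 a h5 hab.symm
    · exact absurd hab (hA a (mem_filter.1 h5).1 b hbA)
  intro a ha b hb hab
  by_cases h1 : a ∈ P ∪ A.filter (fun x => ¬ ∃ q ∈ Q, G.Adj x q) <;>
    by_cases h2 : b ∈ P ∪ A.filter (fun x => ¬ ∃ q ∈ Q, G.Adj x q)
  · simp only [h1, h2, if_true]
    exact fun h3 => hφ a h1 b h2 hab (σ.injective h3)
  · simp only [h1, h2, if_true, if_false]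
    exact key a ha b hb hab h1 h2
  · simp only [h1, h2, if_true, if_false]
    exact (key b hb a ha hab.symm h2 h1).symm
  · simp only [h1, h2, if_false]
    by_cases h3 : a ∈ Q ∪ A.filter (fun x => ¬ ∃ p ∈ P, G.Adj x p) <;>
      by_cases h4 : b ∈ Q ∪ A.filter (fun x => ¬ ∃ p ∈ P, G.Adj x p)
    · simp only [h3, h4, if_true]
      exact hψ a h3 b h4 hab
    · simp only [h3, h4, if_true, if_false]
      exact key2 a ha b hb hab h3 (hk b hb h2 h4)
    · simp only [h3, h4, if_true, if_false]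
      exact (key2 b hb a ha hab.symm h4 (hk a ha h1 h3)).symm
    · have h5 := hk a ha h1 h3
      have h6 := hk b hb h2 h4
      exact absurd hab (hA a (mem_filter.1 h5).1 b (mem_filter.1 h6).1)

end Pool.Agent.OW46
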