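import Pool.Agent.Lib_helper46.OW.KM
import Pool.Agent.Lib_helper46.OW.Cut
import Pool.Agent.Lib_helper92.OW.Defs

/-!
# The end of the proof for residues with small clusters
-/

set_option autoImplicit false
set_option linter.unusedSectionVars false
set_option linter.unusedVariables false

open scoped Classical
open Finset
open Pool.Agent.O2 (PC Cb CrOn pr ms dg nd)
open Pool.Agent.O3 (con hit Clq)
open Pool.Agent.OW46 (km bb cut)

namespace Pool.Agent.OW

variable {V : Type}

/-- the sum of `bb` over all vertices outside `A` -/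
theorem bb_sum {G : SimpleGraph V} {S : Finset V} {K : ℕ} {A : Finset V} (hAS : A ⊆ S)
    (hA : ∀ a ∈ A, ∀ b ∈ A, ¬ G.Adj a b) (hAd : ∀ x ∈ A, dg G S x = K) :
    ∑ u ∈ S \ A, bb G S K A u = df G K S - 2 * S.card + ((K : ℤ) + 1) * A.card := by
  have h1 : ∑ u ∈ S \ A, (dg G S u : ℤ) = pr G S S - K * A.card := by
    have h2 : (pr G S S : ℤ) = ∑ u ∈ S, (dg G S u : ℤ) := by
      rw [Pool.Agent.O2.pr_sum]; push_cast; rfl
    have h3 := sum_sdiff (f := fun u => (dg G S u : ℤ)) hAS
    have h4 : ∑ u ∈ A, (dg G S u : ℤ) = A.card * K := by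
      rw [← nsmul_eq_mul, ← sum_const]
      exact sum_congr rfl fun x hx => by rw [hAd x hx]
    linarith
  have h5 : ∑ u ∈ S \ A, (dg G A u : ℤ) = K * A.card := by
    have h6 : pr G (S \ A) A = pr G A (S \ A) := Pool.Agent.O2.pr_symm G _ _
    rw [Pool.Agent.O2.pr_sum, Pool.Agent.O2.pr_sum] at h6
    have h7 : ∀ x ∈ A, dg G (S \ A) x = K := by
      intro x hx
      have h8 : dg G (S \ A ∪ A) x = dg G (S \ A) x + dg G A x :=
        Pool.Agent.O2.dg_union sdiff_disjoint x
      rw [sdiff_union_of_subset hAS, hAd x hx] at h8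
      have h9 : dg G A x = 0 := by
        unfold dg
        rw [card_eq_zero, filter_eq_empty_iff]
        exact fun y hy => hA x hx y hy
      omega
    have h10 : ∑ x ∈ A, dg G (S \ A) x = A.card * K := by
      rw [← smul_eq_mul, ← sum_const]
      exact sum_congr rfl h7
    rw [h10] at h6
    have h11 : ((∑ u ∈ S \ A, dg G A u : ℕ) : ℤ) = A.card * K := by exact_mod_cast h6
    push_cast at h11
    linarith
  have h12 : ((S \ A).card : ℤ) = S.card - A.card := by
    rw [card_sdiff_of_subset hAS, Nat.cast_sub (card_le_card hAS)]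
  unfold bb
  rw [sum_add_distrib, sum_sub_distrib, sum_const, nsmul_eq_mul, h1, h5, h12]
  unfold df
  ring

/-- the excess of the subsets of `S \ A` -/
theorem exc_le {G : SimpleGraph V} {S : Finset V} {K : ℕ} (hK : 0 < K) (h : CrOn G S K)
    {A R : Finset V} (hAn : A.Nonempty) (hAS : A ⊆ S) (hR : R ⊆ S \ A)
    (hA : ∀ a ∈ A, ∀ b ∈ A, ¬ G.Adj a b) (hAd : ∀ x ∈ A, dg G S x = K) :
    ∑ u ∈ R, ((dg G (S \ A) u : ℤ) - ((K : ℤ) - 1)) + K * A.card + df G K S + 1 ≤
      2 * S.card := by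
  have h1 := km hK h hAn hAS (B := (S \ A) \ R) (sdiff_subset.trans sdiff_subset)
    (by
      rw [disjoint_left]
      intro x hx hx'
      exact (mem_sdiff.1 (mem_sdiff.1 hx').1).2 hx) hA (fun x hx => (hAd x hx).le)
  have h2 := bb_sum hAS hA hAd
  have h3 := sum_sdiff (f := fun u => bb G S K A u) hR
  have h4 : ∑ u ∈ R, ((dg G (S \ A) u : ℤ) - ((K : ℤ) - 1)) = - ∑ u ∈ R, bb G S K A u := by
    rw [← sum_neg_distrib]
    apply sum_congr rfl
    intro u hu
    have h8 : dg G (S \ A ∪ A) u = dg G (S \ A) u + dg G A u :=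
      Pool.Agent.O2.dg_union sdiff_disjoint u
    rw [sdiff_union_of_subset hAS] at h8
    unfold bb
    have h9 : (dg G S u : ℤ) = dg G (S \ A) u + dg G A u := by exact_mod_cast h8
    rw [h9]
    ring
  rw [h4]
  linarith

/-- the kernel bound -/
theorem kd_le {G : SimpleGraph V} {S : Finset V} {K : ℕ} (hK : 0 < K) (h : CrOn G S K)
    {A : Finset V} (hAn : A.Nonempty) (hAS : A ⊆ S)
    (hA : ∀ a ∈ A, ∀ b ∈ A, ¬ G.Adj a b) (hAd : ∀ x ∈ A, dg G S x = K) :
    K * A.card + df G K S + 1 ≤ 2 * (S.card : ℤ) := by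
  have := exc_le hK h hAn hAS (empty_subset _) hA hAd
  simpa using this

/-- the end of the proof if the bound is not negative -/
theorem end_pos {G : SimpleGraph V} {S : Finset V} {K q : ℕ} (hK : 0 < K) (h : CrOn G S K)
    {A : Finset V} (hAS : A ⊆ S) (hA : ∀ a ∈ A, ∀ b ∈ A, ¬ G.Adj a b)
    (hAd : ∀ x ∈ A, dg G S x = K) (hdA : df G K S ≤ A.card) (hq : S.card ≤ K * q + K)
    (hd : 2 * (q : ℤ) + 2 ≤ df G K S) : False := by
  have hAn : A.Nonempty := by
    apply card_pos.1
    omega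
  have h1 := kd_le hK h hAn hAS hA hAd
  have h2 : (K : ℤ) * (2 * q + 2) ≤ K * A.card := by
    apply mul_le_mul_of_nonneg_left _ (by positivity)
    linarith
  have h3 : (S.card : ℤ) ≤ K * q + K := by exact_mod_cast hq
  linarith

/-- the end of the proof for even `K`, residue `K - 4` -/
theorem end_even {G : SimpleGraph V} {S : Finset V} {K q : ℕ} (hK : 8 ≤ K) (h : CrOn G S K)
    {A : Finset V} (hAS : A ⊆ S) (hA : ∀ a ∈ A, ∀ b ∈ A, ¬ G.Adj a b)
    (hAd : ∀ x ∈ A, dg G S x = K) (hdA : df G K S ≤ A.card) (hq : S.card + 3 = K * q + K)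
    (hq1 : 1 ≤ q) (hd : 2 * (q : ℤ) + 1 ≤ df G K S)
    (hM : 10 ≤ K → ∀ (V' : Type) (G' : SimpleGraph V') (S' : Finset V'), CrOn G' S' (K - 1) →
      K + 1 ≤ S'.card → (S'.card : ℤ) - df G' (K - 1) S' ≥ K - 3) : False := by
  have hK0 : 0 < K := by omega
  have hAn : A.Nonempty := by
    apply card_pos.1
    omega
  have hcard : (S.card : ℤ) + 3 = K * q + K := by exact_mod_cast hq
  have hAq : 2 * (q : ℤ) + 1 ≤ A.card := by linarith
  have hq1' : (1 : ℤ) ≤ q := by exact_mod_cast hq1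
  have hK' : (8 : ℤ) ≤ K := by exact_mod_cast hK
  have hKA : (K : ℤ) * (2 * q + 1) ≤ K * A.card :=
    mul_le_mul_of_nonneg_left hAq (by linarith)
  -- `S \ A` is not `(K - 1)`-colourable
  have hF : ¬ Cb G (S \ A) (K - 1) := by
    intro hc
    apply h.1
    have h1 : Cb G A 1 := Pool.Agent.O2.cb_one hA
    have h2 := Pool.Agent.O2.cb_union hc h1
    rw [sdiff_union_of_subset hAS] at h2
    exact Pool.Agent.O2.cb_mono (by omega) h2
  obtain ⟨R, hR, hRc⟩ := Pool.Agent.O2.exists_crOn hF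
  have hexc := exc_le hK0 h hAn hAS hR hA hAd
  by_cases hRF : R = S \ A
  · -- the whole of `S \ A` is critical
    subst hRF
    have hs : ∑ u ∈ S \ A, ((dg G (S \ A) u : ℤ) - ((K : ℤ) - 1)) =
        (S \ A).card - df G (K - 1) (S \ A) := by
      unfold df
      rw [Pool.Agent.O2.pr_sum, sum_sub_distrib, sum_const, nsmul_eq_mul]
      push_cast [Nat.cast_sub (by omega : 1 ≤ K)]
      ring
    have hb := bb_sum hAS hA hAd
    have h4 : ∑ u ∈ S \ A, ((dg G (S \ A) u : ℤ) - ((K : ℤ) - 1)) =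
        - ∑ u ∈ S \ A, bb G S K A u := by
      rw [← sum_neg_distrib]
      apply sum_congr rfl
      intro u hu
      have h8 : dg G (S \ A ∪ A) u = dg G (S \ A) u + dg G A u :=
        Pool.Agent.O2.dg_union sdiff_disjoint u
      rw [sdiff_union_of_subset hAS] at h8
      unfold bb
      have h9 : (dg G S u : ℤ) = dg G (S \ A) u + dg G A u := by exact_mod_cast h8
      rw [h9]
      ring
    rw [hb] at h4
    have h5 : (0 : ℤ) ≤ ∑ u ∈ S \ A, ((dg G (S \ A) u : ℤ) - ((K : ℤ) - 1)) := by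
      apply sum_nonneg
      intro u hu
      have h6 := hRc.dg_ge hu
      have h7 : ((K - 1 : ℕ) : ℤ) ≤ dg G (S \ A) u := by exact_mod_cast h6
      rw [Nat.cast_sub (by omega : 1 ≤ K)] at h7
      push_cast at h7
      linarith
    have h6 : ∑ u ∈ S \ A, ((dg G (S \ A) u : ℤ) - ((K : ℤ) - 1)) ≤ K - 8 - 4 * q := by
      rw [h4]
      nlinarith
    have hKbig : 10 ≤ K := by
      have : (12 : ℤ) ≤ K := by linarith
      omega
    have hcF : ((S \ A).card : ℤ) = S.card - A.card := by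
      rw [card_sdiff_of_subset hAS, Nat.cast_sub (card_le_card hAS)]
    have hge : K ≤ (S \ A).card := by
      have := hRc.card_ge
      omega
    by_cases hcK : (S \ A).card = K
    · have h7 : (K : ℤ) = S.card - A.card := by rw [← hcF, hcK]
      have h8 : (pr G (S \ A) (S \ A) : ℤ) + K ≤ K * K := by
        have := Pool.Agent.O2.pr_le G (S \ A)
        rw [hcK] at this
        exact_mod_cast this
      -- all degrees are exactly K - 1, so the sum is 0
      have h9 : ∑ u ∈ S \ A, ((dg G (S \ A) u : ℤ) - ((K : ℤ) - 1)) ≤ 0 := by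
        rw [sum_sub_distrib, sum_const, nsmul_eq_mul, hcK]
        have h10 : (pr G (S \ A) (S \ A) : ℤ) = ∑ u ∈ S \ A, (dg G (S \ A) u : ℤ) := by
          rw [Pool.Agent.O2.pr_sum]; push_cast; rfl
        rw [← h10]
        nlinarith
      have h10 : ∑ u ∈ S \ A, ((dg G (S \ A) u : ℤ) - ((K : ℤ) - 1)) = 0 := le_antisymm h9 h5
      rw [h4] at h10
      nlinarith
    · have h7 := hM hKbig V G (S \ A) hRc (by omega)
      rw [hs] at h6
      linarith
  · -- a cut
    obtain ⟨y, hy, hyR⟩ := exists_of_ssubset (hR.ssubset_of_ne hRF)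
    have hRn : R.Nonempty := hRc.nonempty
    have hcut := cut (by omega : 2 ≤ K) h (A := A) (P := R) (Q := (S \ A) \ R) hA
      (fun x hx => (hAd x hx).le) hRn ⟨y, mem_sdiff.2 ⟨hy, hyR⟩⟩ disjoint_sdiff
      (by
        rw [disjoint_left]
        intro x hx
        exact (mem_sdiff.1 (hR hx)).2)
      (by
        rw [disjoint_left]
        intro x hx
        exact (mem_sdiff.1 (mem_sdiff.1 hx).1).2)
      (by
        intro v
        constructor
        · intro hv
          by_cases h1 : v ∈ A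
          · exact Or.inl h1
          · by_cases h2 : v ∈ R
            · exact Or.inr (Or.inl h2)
            · exact Or.inr (Or.inr (mem_sdiff.2 ⟨mem_sdiff.2 ⟨hv, h1⟩, h2⟩))
        · rintro (h1 | h1 | h1)
          · exact hAS h1
          · exact (mem_sdiff.1 (hR h1)).1
          · exact (mem_sdiff.1 (mem_sdiff.1 h1).1).1)
    have h1 : (A.filter fun x => (∃ p ∈ R, G.Adj x p) ∧ ∃ q ∈ (S \ A) \ R, G.Adj x q).card ≤
        A.card := card_filter_le _ _
    have h2 : (pr G R ((S \ A) \ R) : ℤ) ≤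
        ∑ u ∈ R, ((dg G (S \ A) u : ℤ) - ((K : ℤ) - 1)) := by
      rw [Pool.Agent.O2.pr_sum]
      push_cast
      apply sum_le_sum
      intro u hu
      have h3 := hRc.dg_ge hu
      have h4 : dg G (R ∪ (S \ A) \ R) u = dg G R u + dg G ((S \ A) \ R) u :=
        Pool.Agent.O2.dg_union disjoint_sdiff u
      rw [union_sdiff_of_subset hR] at h4
      have h5 : ((K - 1 : ℕ) : ℤ) ≤ dg G R u := by exact_mod_cast h3
      rw [Nat.cast_sub (by omega : 1 ≤ K)] at h5
      push_cast at h5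
      have h6 : (dg G (S \ A) u : ℤ) = dg G R u + dg G ((S \ A) \ R) u := by exact_mod_cast h4
      linarith
    have h3 : (K : ℤ) ≤ pr G R ((S \ A) \ R) + A.card := by
      have : K ≤ pr G R ((S \ A) \ R) + A.card := by omega
      exact_mod_cast this
    nlinarith

theorem vt_le {K p : ℕ} (hp : p ≠ 0) : vt K p ≤ 2 := by
  unfold vt
  split_ifs <;> omega

/-- the bound of the theorem contains Dirac's bound -/
theorem dirac_num {M : ℕ} (hM : 2 ≤ M) {V' : Type} {G' : SimpleGraph V'} {S' : Finset V'}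
    (hd : df G' M S' ≤ bt M (S'.card - 1)) (hc : M + 2 ≤ S'.card) :
    (S'.card : ℤ) - df G' M S' ≥ M - 2 := by
  obtain ⟨m, hm⟩ : ∃ m, S'.card = m + 1 := ⟨S'.card - 1, by omega⟩
  rw [hm] at hd hc ⊢
  rw [Nat.add_sub_cancel] at hd
  have h1 := Nat.div_add_mod m M
  set a := m / M with ha
  set r := m % M with hr
  have hrM : r < M := Nat.mod_lt _ (by omega)
  have hbt : bt M m = 2 * (a : ℤ) + vt M r := by
    unfold bt
    rw [← ha, ← hr]
  rw [hbt] at hd
  have h1' : (M : ℤ) * a + r = m := by exact_mod_cast h1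
  have hM' : (2 : ℤ) ≤ M := by exact_mod_cast hM
  push_cast
  by_cases hr0 : r = 0
  · have h2 : vt M r = (M : ℤ) - 1 := by rw [hr0]; exact vt_zero M
    have ha2 : 2 ≤ a := by
      by_contra hlt
      have h3 : a ≤ 1 := by omega
      have h4 : M * a ≤ M * 1 := Nat.mul_le_mul_left _ h3
      omega
    have ha2' : (2 : ℤ) ≤ a := by exact_mod_cast ha2
    have hr0' : (r : ℤ) = 0 := by exact_mod_cast hr0
    nlinarith [mul_nonneg (sub_nonneg.2 ha2') (sub_nonneg.2 hM')]
  · have h2 := vt_le (K := M) hr0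
    have ha1 : 1 ≤ a := by
      rcases Nat.eq_zero_or_pos a with h3 | h3
      · rw [h3, Nat.mul_zero] at h1
        omega
      · exact h3
    have ha1' : (1 : ℤ) ≤ a := by exact_mod_cast ha1
    have hr1 : (1 : ℤ) ≤ r := by exact_mod_cast Nat.pos_of_ne_zero hr0
    nlinarith [mul_nonneg (sub_nonneg.2 ha1') (sub_nonneg.2 hM')]

end Pool.Agent.OW
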