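import Pool.Agent.Lib_helper46.OW.Ker

/-!
# The kernel bound for independent sets of low vertices
-/

set_option autoImplicit false
set_option linter.unusedSectionVars false

open scoped Classical
open Finset
open Pool.Agent.O2 (PC Cb CrOn pr ms dg nd)

namespace Pool.Agent.OW46

variable {V : Type}

/-- the colours which are free at `v` -/
noncomputable def free {K : ℕ} (G : SimpleGraph V) (R : Finset V) (φ : V → Fin K) (v : V) :
    Finset (Fin K) := univ.filter fun i => ∀ y ∈ R, G.Adj v y → φ y ≠ i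

theorem free_card {K : ℕ} (G : SimpleGraph V) (R : Finset V) (φ : V → Fin K) (v : V) :
    K ≤ (free G R φ v).card + dg G R v := by
  have h1 : (univ : Finset (Fin K)) ⊆ free G R φ v ∪ (R.filter fun y => G.Adj v y).image φ := by
    intro i _
    by_cases h : ∀ y ∈ R, G.Adj v y → φ y ≠ i
    · exact mem_union_left _ (mem_filter.2 ⟨mem_univ _, h⟩)
    · push Not at h
      obtain ⟨y, hy, h1, h2⟩ := h
      exact mem_union_right _ (mem_image.2 ⟨y, mem_filter.2 ⟨hy, h1⟩, h2⟩)
  have h2 := card_le_card h1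
  rw [card_univ, Fintype.card_fin] at h2
  refine h2.trans ((card_union_le _ _).trans ?_)
  exact Nat.add_le_add_left card_image_le _

/-- Hall's condition with capacities -/
theorem hall_cap (A B : Finset V) (R : V → V → Prop) (b : V → ℕ)
    (h : ∀ A' ⊆ A, A'.card ≤ ∑ u ∈ B.filter (fun u => ∃ x ∈ A', R x u), b u) :
    ∃ f : V → V, (∀ x ∈ A, f x ∈ B ∧ R x (f x)) ∧
      ∀ u ∈ B, (A.filter fun x => f x = u).card ≤ b u := by
  let t : {x // x ∈ A} → Finset (Σ _ : V, ℕ) := fun x =>
    (B.filter fun u => R x.1 u).sigma fun u => range (b u)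
  have hall : ∀ s : Finset {x // x ∈ A}, s.card ≤ (s.biUnion t).card := by
    intro s
    have h1 : s.biUnion t =
        (B.filter fun u => ∃ x ∈ s.map (Function.Embedding.subtype _), R x u).sigma
          fun u => range (b u) := by
      ext ⟨u, i⟩
      simp only [t, mem_biUnion, mem_sigma, mem_filter, mem_range, mem_map,
        Function.Embedding.coe_subtype]
      constructor
      · rintro ⟨x, hx, ⟨hu, hxu⟩, hi⟩
        exact ⟨⟨hu, x.1, ⟨x, hx, rfl⟩, hxu⟩, hi⟩
      · rintro ⟨⟨hu, _, ⟨x, hx, rfl⟩, hxu⟩, hi⟩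
        exact ⟨x, hx, ⟨hu, hxu⟩, hi⟩
    rw [h1, card_sigma]
    have h2 := h (s.map (Function.Embedding.subtype _)) (by
      intro x hx
      obtain ⟨y, -, rfl⟩ := mem_map.1 hx
      exact y.2)
    rw [card_map] at h2
    simpa using h2
  obtain ⟨f, hf1, hf2⟩ := (Finset.all_card_le_biUnion_card_iff_exists_injective t).1 hall
  refine ⟨fun x => if hx : x ∈ A then (f ⟨x, hx⟩).1 else x, ?_, ?_⟩
  · intro x hx
    simp only [hx, dif_pos]
    have h1 := hf2 ⟨x, hx⟩
    simp only [t, mem_sigma, mem_filter] at h1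
    exact h1.1
  · intro u hu
    have h1 : (A.filter fun x => (if hx : x ∈ A then (f ⟨x, hx⟩).1 else x) = u).card ≤
        (range (b u)).card := by
      apply card_le_card_of_injOn (fun x => if hx : x ∈ A then (f ⟨x, hx⟩).2 else 0)
      · intro x hx
        obtain ⟨hxA, hxu⟩ := mem_filter.1 (mem_coe.1 hx)
        simp only [hxA, dif_pos] at hxu ⊢
        have h1 := hf2 ⟨x, hxA⟩
        simp only [t, mem_sigma, mem_filter] at h1
        rw [hxu] at h1
        exact mem_coe.2 h1.2
      · intro x hx y hy hxy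
        obtain ⟨hxA, hxu⟩ := mem_filter.1 (mem_coe.1 hx)
        obtain ⟨hyA, hyu⟩ := mem_filter.1 (mem_coe.1 hy)
        simp only [hxA, hyA, dif_pos] at hxu hyu hxy
        have h3 : f ⟨x, hxA⟩ = f ⟨y, hyA⟩ := by
          apply Sigma.ext
          · rw [hxu, hyu]
          · exact heq_of_eq hxy
        exact congrArg Subtype.val (hf1 h3)
    rwa [card_range] at h1

/-- the colouring step: with enough capacity the colouring extends -/
theorem km_ext {G : SimpleGraph V} {S : Finset V} {K : ℕ} (hK : 0 < K) (h : CrOn G S K)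
    {A B : Finset V} (hAS : A ⊆ S) (hBS : B ⊆ S) (hAB : Disjoint A B) (hAn : A.Nonempty)
    (hA : ∀ a ∈ A, ∀ b ∈ A, ¬ G.Adj a b) (hAd : ∀ x ∈ A, dg G S x ≤ K) (f : V → V)
    (hf : ∀ x ∈ A, f x ∈ B ∧ G.Adj x (f x))
    (hc : ∀ u ∈ B, (A.filter fun x => f x = u).card + 1 + dg G S u ≤ K + dg G A u) : False := by
  have hne : (S \ (A ∪ B)) ≠ S := by
    intro h1
    obtain ⟨x, hx⟩ := hAn
    have h2 : x ∈ S \ (A ∪ B) := by rw [h1]; exact hAS hx
    exact (mem_sdiff.1 h2).2 (mem_union_left _ hx)
  have h1 : Cb G (S \ (A ∪ B)) K := h.sub sdiff_subset hne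
  obtain ⟨φ, hφ⟩ := (Pool.Agent.O2.cb_fin hK).1 h1
  have hdec : ∀ v, dg G S v = dg G (S \ (A ∪ B)) v + (dg G A v + dg G B v) := by
    intro v
    rw [← Pool.Agent.O2.dg_union hAB, ← Pool.Agent.O2.dg_union (sdiff_disjoint)]
    congr 1
    exact (sdiff_union_of_subset (union_subset hAS hBS)).symm
  have : Nonempty (Fin K) := ⟨⟨0, hK⟩⟩
  obtain ⟨c, hc1, hc2⟩ := list_col (G := G) (fun u x => f x = u) _ A B
    (fun v => free G (S \ (A ∪ B)) φ v) rfl hA (by
      intro x hx
      have h2 := free_card G (S \ (A ∪ B)) φ x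
      have h3 := hdec x
      have h4 := hAd x hx
      have h5 : dg G A x = 0 := by
        unfold dg
        rw [card_eq_zero, filter_eq_empty_iff]
        exact fun y hy => hA x hx y hy
      have h6 : (B.filter fun u => G.Adj x u ∧ ¬ f x = u).card + 1 ≤ dg G B x := by
        unfold dg
        apply Nat.succ_le_of_lt
        apply card_lt_card
        refine ⟨fun u hu => ?_, fun hss => ?_⟩
        · obtain ⟨h7, h8, h9⟩ := mem_filter.1 hu
          exact mem_filter.2 ⟨h7, h8⟩
        · have h7 := hss (mem_filter.2 ⟨(hf x hx).1, (hf x hx).2⟩)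
          exact (mem_filter.1 h7).2.2 rfl
      omega) (by
      intro u hu
      have h2 := free_card G (S \ (A ∪ B)) φ u
      have h3 := hdec u
      have h4 := hc u hu
      have h5 : (A.filter fun x => G.Adj u x ∧ f x = u).card ≤
          (A.filter fun x => f x = u).card :=
        card_le_card (fun x hx => mem_filter.2 ⟨(mem_filter.1 hx).1, (mem_filter.1 hx).2.2⟩)
      have h6 : dg G B u = (B.filter fun w => G.Adj u w).card := rfl
      omega)
  apply h.1
  apply Pool.Agent.O2.cb_of_pc (φ := fun v => if v ∈ A ∪ B then c v else φ v)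
  intro a ha b hb hab
  by_cases h2 : a ∈ A ∪ B <;> by_cases h3 : b ∈ A ∪ B
  · simp only [h2, h3, if_true]
    exact hc2 a (mem_union.1 h2) b (mem_union.1 h3) hab
  · simp only [h2, h3, if_true, if_false]
    have h4 := (mem_filter.1 (hc1 a (mem_union.1 h2))).2 b (mem_sdiff.2 ⟨hb, h3⟩) hab
    exact fun h5 => h4 h5.symm
  · simp only [h2, h3, if_true, if_false]
    exact (mem_filter.1 (hc1 b (mem_union.1 h3))).2 a (mem_sdiff.2 ⟨ha, h2⟩) hab.symm
  · simp only [h2, h3, if_false]
    exact hφ a (mem_sdiff.2 ⟨ha, h2⟩) b (mem_sdiff.2 ⟨hb, h3⟩) hab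

/-- `K - 1 - deg + (neighbours in A)` -/
noncomputable def bb (G : SimpleGraph V) (S : Finset V) (K : ℕ) (A : Finset V) (u : V) : ℤ :=
  (K : ℤ) - 1 - dg G S u + dg G A u

theorem km_aux {G : SimpleGraph V} {S : Finset V} {K : ℕ} (hK : 0 < K) (h : CrOn G S K) :
    ∀ (N : ℕ) (A B : Finset V), A.card = N → A ⊆ S → B ⊆ S → Disjoint A B →
    (∀ a ∈ A, ∀ b ∈ A, ¬ G.Adj a b) → (∀ x ∈ A, dg G S x ≤ K) →
    ∑ u ∈ B, bb G S K A u ≤ A.card ∧ (A.Nonempty → ∑ u ∈ B, bb G S K A u < A.card) := by
  intro N
  induction N using Nat.strong_induction_on with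
  | _ N ih =>
    intro A B hN hAS hBS hAB hA hAd
    rcases A.eq_empty_or_nonempty with rfl | hAn
    · refine ⟨?_, fun h => absurd h (by simp)⟩
      have h1 : ∀ u ∈ B, bb G S K ∅ u ≤ 0 := by
        intro u hu
        have h2 := h.dg_ge (hBS hu)
        have h3 : dg G ∅ u = 0 := by simp [dg]
        unfold bb
        rw [h3]
        push_cast
        omega
      simpa using sum_nonpos h1
    have key : ∑ u ∈ B, bb G S K A u < A.card := by
      by_contra hcon
      push Not at hcon
      set B0 := B.filter fun u => 0 ≤ bb G S K A u with hB0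
      have hB0B : B0 ⊆ B := filter_subset _ _
      have h1 : (A.card : ℤ) ≤ ∑ u ∈ B0, bb G S K A u := by
        refine hcon.trans ?_
        rw [← sum_filter_add_sum_filter_not B (fun u => 0 ≤ bb G S K A u)]
        have h2 : ∑ u ∈ B.filter (fun u => ¬ 0 ≤ bb G S K A u), bb G S K A u ≤ 0 :=
          sum_nonpos fun u hu => by
            have := (mem_filter.1 hu).2
            omega
        linarith
      have h0 : ∀ u ∈ B0, 0 ≤ bb G S K A u := fun u hu => (mem_filter.1 hu).2
      by_cases hall : ∀ A' ⊆ A, A'.card ≤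
          ∑ u ∈ B0.filter (fun u => ∃ x ∈ A', G.Adj x u), (bb G S K A u).toNat
      · obtain ⟨f, hf1, hf2⟩ := hall_cap A B0 (fun x u => G.Adj x u)
          (fun u => (bb G S K A u).toNat) hall
        refine km_ext hK h hAS (hB0B.trans hBS) (disjoint_of_subset_right hB0B hAB) hAn hA hAd f
          hf1 ?_
        intro u hu
        have h2 := hf2 u hu
        have h3 := h0 u hu
        have h4 : ((bb G S K A u).toNat : ℤ) = bb G S K A u := Int.toNat_of_nonneg h3
        have h5 : bb G S K A u = (K : ℤ) - 1 - dg G S u + dg G A u := rfl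
        omega
      · push Not at hall
        obtain ⟨A', hA', h2⟩ := hall
        have h3 : A'.Nonempty := by
          rw [nonempty_iff_ne_empty]
          rintro rfl
          simp at h2
        have h4 : (A \ A').card + A'.card = A.card := by
          rw [card_sdiff_of_subset hA']
          have := card_le_card hA'
          omega
        have h5 : 0 < A'.card := card_pos.2 h3
        have h6 := (ih _ (by omega) (A \ A') (B0.filter fun u => ¬ ∃ x ∈ A', G.Adj x u) rfl
          (sdiff_subset.trans hAS) ((filter_subset _ _).trans (hB0B.trans hBS))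
          (disjoint_of_subset_left sdiff_subset
            (disjoint_of_subset_right ((filter_subset _ _).trans hB0B) hAB))
          (fun a ha b hb => hA a (mem_sdiff.1 ha).1 b (mem_sdiff.1 hb).1)
          (fun x hx => hAd x (mem_sdiff.1 hx).1)).1
        have h7 : ∑ u ∈ B0.filter (fun u => ¬ ∃ x ∈ A', G.Adj x u), bb G S K (A \ A') u =
            ∑ u ∈ B0.filter (fun u => ¬ ∃ x ∈ A', G.Adj x u), bb G S K A u := by
          apply sum_congr rfl
          intro u hu
          have h8 := (mem_filter.1 hu).2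
          push Not at h8
          have h9 : dg G (A \ A') u = dg G A u := by
            unfold dg
            congr 1
            ext y
            simp only [mem_filter, mem_sdiff]
            constructor
            · rintro ⟨⟨h1, -⟩, h2⟩; exact ⟨h1, h2⟩
            · rintro ⟨h1, h2⟩; exact ⟨⟨h1, fun h3 => h8 y h3 h2.symm⟩, h2⟩
          unfold bb
          rw [h9]
        have h8 : ∑ u ∈ B0.filter (fun u => ∃ x ∈ A', G.Adj x u), bb G S K A u =
            ((∑ u ∈ B0.filter (fun u => ∃ x ∈ A', G.Adj x u), (bb G S K A u).toNat : ℕ) : ℤ) := by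
          push_cast
          apply sum_congr rfl
          intro u hu
          exact (Int.toNat_of_nonneg (h0 u (mem_filter.1 hu).1)).symm
        have h9 := sum_filter_add_sum_filter_not B0 (fun u => ∃ x ∈ A', G.Adj x u)
          (fun u => bb G S K A u)
        rw [h7] at h6
        have h10 : (((A \ A').card : ℕ) : ℤ) + A'.card = A.card := by exact_mod_cast h4
        have h11 : ((∑ u ∈ B0.filter (fun u => ∃ x ∈ A', G.Adj x u),
          (bb G S K A u).toNat : ℕ) : ℤ) < A'.card := by exact_mod_cast h2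
        linarith
    exact ⟨key.le, fun _ => key⟩

/-- the kernel bound -/
theorem km {G : SimpleGraph V} {S : Finset V} {K : ℕ} (hK : 0 < K) (h : CrOn G S K)
    {A B : Finset V} (hAn : A.Nonempty) (hAS : A ⊆ S) (hBS : B ⊆ S) (hAB : Disjoint A B)
    (hA : ∀ a ∈ A, ∀ b ∈ A, ¬ G.Adj a b) (hAd : ∀ x ∈ A, dg G S x ≤ K) :
    ∑ u ∈ B, bb G S K A u < A.card :=
  (km_aux hK h _ A B rfl hAS hBS hAB hA hAd).2 hAn

end Pool.Agent.OW46
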