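import Pool.Agent.Lib_helper46.O2.L2

/-!
# Kernels and list colourings for an independent set and the rest
-/

set_option autoImplicit false
set_option linter.unusedSectionVars false

open scoped Classical
open Finset
open Pool.Agent.O2 (PC Cb CrOn pr ms dg nd)

namespace Pool.Agent.OW46

variable {V : Type}

/-- a kernel: arcs inside `B` in both directions, arcs between `B` and the independent set `A`
given by `o` -/
theorem kernel {G : SimpleGraph V} (o : V → V → Prop) : ∀ (N : ℕ) (A B : Finset V),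
    A.card + B.card = N → (∀ a ∈ A, ∀ b ∈ A, ¬ G.Adj a b) →
    ∃ I : Finset V, (∀ a ∈ I, a ∈ A ∨ a ∈ B) ∧ (∀ a ∈ I, ∀ b ∈ I, ¬ G.Adj a b) ∧
      (∀ x ∈ A, x ∉ I → ∃ u ∈ I, u ∈ B ∧ G.Adj x u ∧ ¬ o u x) ∧
      (∀ u ∈ B, u ∉ I → (∃ w ∈ I, w ∈ B ∧ G.Adj u w) ∨ ∃ x ∈ I, x ∈ A ∧ G.Adj u x ∧ o u x) := by
  intro N
  induction N using Nat.strong_induction_on with
  | _ N ih =>
    intro A B hN hA
    by_cases h : ∀ u ∈ B, ∃ x ∈ A, G.Adj u x ∧ o u x
    · refine ⟨A, fun a ha => Or.inl ha, hA, fun x hx hx' => absurd hx hx', fun u hu _ => ?_⟩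
      obtain ⟨x, hx, h1, h2⟩ := h u hu
      exact Or.inr ⟨x, hx, hx, h1, h2⟩
    · push Not at h
      obtain ⟨u, hu, hux⟩ := h
      have h1 : (A.filter fun x => ¬ G.Adj u x).card ≤ A.card := card_filter_le _ _
      have h2 : ((B.erase u).filter fun x => ¬ G.Adj u x).card < B.card :=
        lt_of_le_of_lt (card_filter_le _ _) (card_erase_lt_of_mem hu)
      obtain ⟨I, hI, hI1, hI2, hI3⟩ := ih _ (by omega) (A.filter fun x => ¬ G.Adj u x)
        ((B.erase u).filter fun x => ¬ G.Adj u x) rfl
        (fun a ha b hb => hA a (mem_filter.1 ha).1 b (mem_filter.1 hb).1)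
      have hIu : ∀ a ∈ I, ¬ G.Adj u a := by
        intro a ha
        rcases hI a ha with h3 | h3
        · exact (mem_filter.1 h3).2
        · exact (mem_filter.1 h3).2
      refine ⟨insert u I, ?_, ?_, ?_, ?_⟩
      · intro a ha
        rcases mem_insert.1 ha with rfl | ha
        · exact Or.inr hu
        · rcases hI a ha with h3 | h3
          · exact Or.inl (mem_filter.1 h3).1
          · exact Or.inr (mem_of_mem_erase (mem_filter.1 h3).1)
      · intro a ha b hb
        rcases mem_insert.1 ha with h4 | h4 <;> rcases mem_insert.1 hb with h5 | h5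
        · rw [h4, h5]; exact G.irrefl
        · rw [h4]; exact hIu b h5
        · rw [h5]; exact fun h3 => hIu a h4 h3.symm
        · exact hI1 a h4 b h5
      · intro x hx hxI
        by_cases hxu : G.Adj u x
        · exact ⟨u, mem_insert_self _ _, hu, hxu.symm, hux x hx hxu⟩
        · obtain ⟨w, hw, h3, h4, h5⟩ := hI2 x (mem_filter.2 ⟨hx, hxu⟩)
            (fun h3 => hxI (mem_insert_of_mem h3))
          exact ⟨w, mem_insert_of_mem hw, mem_of_mem_erase (mem_filter.1 h3).1, h4, h5⟩
      · intro w hw hwI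
        by_cases hwu : G.Adj u w
        · exact Or.inl ⟨u, mem_insert_self _ _, hu, hwu.symm⟩
        · have hne : w ≠ u := fun h3 => hwI (h3 ▸ mem_insert_self _ _)
          rcases hI3 w (mem_filter.2 ⟨mem_erase.2 ⟨hne, hw⟩, hwu⟩)
            (fun h3 => hwI (mem_insert_of_mem h3)) with ⟨z, hz, h3, h4⟩ | ⟨x, hx, h3, h4, h5⟩
          · exact Or.inl ⟨z, mem_insert_of_mem hz, mem_of_mem_erase (mem_filter.1 h3).1, h4⟩
          · exact Or.inr ⟨x, mem_insert_of_mem hx, (mem_filter.1 h3).1, h4, h5⟩

theorem card_filter_lt {α : Type} {B B' : Finset α} {p : α → Prop} [DecidablePred p] (h : B' ⊆ B) {u : α}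
    (hu : u ∈ B) (hu' : u ∉ B') (hp : p u) : (B'.filter p).card + 1 ≤ (B.filter p).card := by
  apply Nat.succ_le_of_lt
  apply card_lt_card
  refine ⟨filter_subset_filter _ h, fun h1 => hu' ?_⟩
  exact (mem_filter.1 (h1 (mem_filter.2 ⟨hu, hp⟩))).1

/-- colouring from lists which are larger than the outdegrees -/
theorem list_col {G : SimpleGraph V} {C : Type} [Nonempty C] (o : V → V → Prop) :
    ∀ (N : ℕ) (A B : Finset V) (L : V → Finset C),
    A.card + B.card = N → (∀ a ∈ A, ∀ b ∈ A, ¬ G.Adj a b) →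
    (∀ x ∈ A, (B.filter fun u => G.Adj x u ∧ ¬ o u x).card + 1 ≤ (L x).card) →
    (∀ u ∈ B, (B.filter fun w => G.Adj u w).card + (A.filter fun x => G.Adj u x ∧ o u x).card + 1
      ≤ (L u).card) →
    ∃ c : V → C, (∀ v, v ∈ A ∨ v ∈ B → c v ∈ L v) ∧
      ∀ a, a ∈ A ∨ a ∈ B → ∀ b, b ∈ A ∨ b ∈ B → G.Adj a b → c a ≠ c b := by
  intro N
  induction N using Nat.strong_induction_on with
  | _ N ih =>
    intro A B L hN hA hLA hLB
    by_cases hne : ∃ v, v ∈ A ∨ v ∈ B
    swap
    · push Not at hne
      refine ⟨fun _ => Classical.arbitrary C, fun v hv => ?_, fun a ha => ?_⟩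
      · exact absurd hv (by push Not; exact hne v)
      · exact absurd ha (by push Not; exact hne a)
    obtain ⟨v, hv⟩ := hne
    have hLv : (L v).Nonempty := by
      apply card_pos.1
      rcases hv with hv | hv
      · have := hLA v hv; omega
      · have := hLB v hv; omega
    obtain ⟨c0, hc0⟩ := hLv
    obtain ⟨I, hI, hI1, hI2, hI3⟩ := kernel (G := G) o _ (A.filter fun x => c0 ∈ L x)
      (B.filter fun x => c0 ∈ L x) rfl (fun a ha b hb => hA a (mem_filter.1 ha).1 b
        (mem_filter.1 hb).1)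
    have hInon : ∃ w ∈ I, w ∈ A ∨ w ∈ B := by
      have h1 : ∃ w, w ∈ I := by
        by_cases hvI : v ∈ I
        · exact ⟨v, hvI⟩
        · rcases hv with hv | hv
          · obtain ⟨u, hu, -⟩ := hI2 v (mem_filter.2 ⟨hv, hc0⟩) hvI
            exact ⟨u, hu⟩
          · rcases hI3 v (mem_filter.2 ⟨hv, hc0⟩) hvI with ⟨u, hu, -⟩ | ⟨u, hu, -⟩
            · exact ⟨u, hu⟩
            · exact ⟨u, hu⟩
      obtain ⟨w, hw⟩ := h1
      refine ⟨w, hw, ?_⟩
      rcases hI w hw with h2 | h2
      · exact Or.inl (mem_filter.1 h2).1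
      · exact Or.inr (mem_filter.1 h2).1
    have hcard : (A \ I).card + (B \ I).card < N := by
      obtain ⟨w, hw, hw'⟩ := hInon
      have h1 : (A \ I).card ≤ A.card := card_le_card sdiff_subset
      have h2 : (B \ I).card ≤ B.card := card_le_card sdiff_subset
      rcases hw' with hw' | hw'
      · have h3 : (A \ I).card < A.card := by
          apply card_lt_card
          exact ⟨sdiff_subset, fun h3 => (mem_sdiff.1 (h3 hw')).2 hw⟩
        omega
      · have h3 : (B \ I).card < B.card := by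
          apply card_lt_card
          exact ⟨sdiff_subset, fun h3 => (mem_sdiff.1 (h3 hw')).2 hw⟩
        omega
    have hLA' : ∀ x ∈ A \ I, ((B \ I).filter fun u => G.Adj x u ∧ ¬ o u x).card + 1 ≤
        ((L x).erase c0).card := by
      intro x hx
      obtain ⟨hxA, hxI⟩ := mem_sdiff.1 hx
      have h1 := hLA x hxA
      by_cases hcx : c0 ∈ L x
      · obtain ⟨u, huI, huB, h2, h3⟩ := hI2 x (mem_filter.2 ⟨hxA, hcx⟩) hxI
        have h4 := card_filter_lt (p := fun u => G.Adj x u ∧ ¬ o u x)
          (sdiff_subset : B \ I ⊆ B) (mem_filter.1 huB).1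
          (fun h5 => (mem_sdiff.1 h5).2 huI) ⟨h2, h3⟩
        have h5 := card_erase_of_mem hcx
        have h6 : 0 < (L x).card := card_pos.2 ⟨c0, hcx⟩
        omega
      · have h4 : ((B \ I).filter fun u => G.Adj x u ∧ ¬ o u x).card ≤
          (B.filter fun u => G.Adj x u ∧ ¬ o u x).card :=
          card_le_card (filter_subset_filter _ sdiff_subset)
        have h5 : (L x).erase c0 = L x := erase_eq_of_notMem hcx
        simp only [h5]
        omega
    have hLB' : ∀ u ∈ B \ I, ((B \ I).filter fun w => G.Adj u w).card +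
        ((A \ I).filter fun x => G.Adj u x ∧ o u x).card + 1 ≤ ((L u).erase c0).card := by
      intro u hu
      obtain ⟨huB, huI⟩ := mem_sdiff.1 hu
      have h1 := hLB u huB
      have h7 : ((B \ I).filter fun w => G.Adj u w).card ≤ (B.filter fun w => G.Adj u w).card :=
        card_le_card (filter_subset_filter _ sdiff_subset)
      have h8 : ((A \ I).filter fun x => G.Adj u x ∧ o u x).card ≤
          (A.filter fun x => G.Adj u x ∧ o u x).card :=
        card_le_card (filter_subset_filter _ sdiff_subset)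
      by_cases hcu : c0 ∈ L u
      · have h5 := card_erase_of_mem hcu
        have h6 : 0 < (L u).card := card_pos.2 ⟨c0, hcu⟩
        rcases hI3 u (mem_filter.2 ⟨huB, hcu⟩) huI with ⟨w, hwI, hwB, h2⟩ | ⟨x, hxI, hxA, h2, h3⟩
        · have h4 := card_filter_lt (p := fun w => G.Adj u w)
            (sdiff_subset : B \ I ⊆ B) (mem_filter.1 hwB).1
            (fun h5 => (mem_sdiff.1 h5).2 hwI) h2
          omega
        · have h4 := card_filter_lt (p := fun x => G.Adj u x ∧ o u x)
            (sdiff_subset : A \ I ⊆ A) (mem_filter.1 hxA).1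
            (fun h5 => (mem_sdiff.1 h5).2 hxI) ⟨h2, h3⟩
          omega
      · have h5 : (L u).erase c0 = L u := erase_eq_of_notMem hcu
        simp only [h5]
        omega
    obtain ⟨c, hc1, hc2⟩ := ih _ hcard (A \ I) (B \ I) (fun v => (L v).erase c0) rfl
      (fun a ha b hb => hA a (mem_sdiff.1 ha).1 b (mem_sdiff.1 hb).1) hLA' hLB'
    · refine ⟨fun v => if v ∈ I then c0 else c v, ?_, ?_⟩
      · intro w hw
        by_cases hwI : w ∈ I
        · simp only [hwI, if_true]
          rcases hI w hwI with h2 | h2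
          · exact (mem_filter.1 h2).2
          · exact (mem_filter.1 h2).2
        · simp only [hwI, if_false]
          exact mem_of_mem_erase (hc1 w (hw.imp (fun h => mem_sdiff.2 ⟨h, hwI⟩)
            (fun h => mem_sdiff.2 ⟨h, hwI⟩)))
      · intro a ha b hb hab
        by_cases haI : a ∈ I <;> by_cases hbI : b ∈ I
        · exact absurd hab (hI1 a haI b hbI)
        · simp only [haI, hbI, if_true, if_false]
          have := hc1 b (hb.imp (fun h => mem_sdiff.2 ⟨h, hbI⟩) (fun h => mem_sdiff.2 ⟨h, hbI⟩))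
          exact fun h3 => ne_of_mem_erase this h3.symm
        · simp only [haI, hbI, if_true, if_false]
          have := hc1 a (ha.imp (fun h => mem_sdiff.2 ⟨h, haI⟩) (fun h => mem_sdiff.2 ⟨h, haI⟩))
          exact fun h3 => ne_of_mem_erase this h3
        · simp only [haI, hbI, if_false]
          exact hc2 a (ha.imp (fun h => mem_sdiff.2 ⟨h, haI⟩) (fun h => mem_sdiff.2 ⟨h, haI⟩)) b
            (hb.imp (fun h => mem_sdiff.2 ⟨h, hbI⟩) (fun h => mem_sdiff.2 ⟨h, hbI⟩)) hab

end Pool.Agent.OW46
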