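import Pool.Agent.Lib_helper46.OW.Sig
import Pool.Agent.Lib_helper46.OW.End

/-!
# No minimal counterexample with small clusters of low vertices
-/

set_option autoImplicit false
set_option linter.unusedSectionVars false
set_option linter.unusedVariables false

open scoped Classical
open Finset
open Pool.Agent.O2 (PC Cb CrOn pr ms dg nd)
open Pool.Agent.O3 (con hit Clq)

namespace Pool.Agent.OW

variable {V : Type}

/-- the residues `2, ..., K - 3`: no minimal counterexample has the structure `Lw` -/
theorem s7 {G : SimpleGraph V} {S : Finset V} {K : ℕ} (hK : 7 ≤ K) (h : Cex G S K (bt K))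
    (hL : Lw G S K) (hr2 : 2 ≤ (S.card - 1) % K) (hr3 : (S.card - 1) % K + 3 ≤ K)
    (hM : K % 2 = 0 → 10 ≤ K → ∀ (V' : Type) (G' : SimpleGraph V') (S' : Finset V'),
      CrOn G' S' (K - 1) → df G' (K - 1) S' ≤ bt (K - 1) (S'.card - 1)) : False := by
  obtain ⟨A, hAS, hAd, hA, hdA⟩ := hL.main (by omega)
  have hcard := h.cr.card_ge
  obtain ⟨m, hm⟩ : ∃ m, S.card = m + 1 := ⟨S.card - 1, by omega⟩
  have hbig := h.big
  rw [hm, Nat.add_sub_cancel] at hbig hr2 hr3
  have h1 := Nat.div_add_mod m K
  obtain ⟨q, hq⟩ : ∃ q, q = m / K := ⟨_, rfl⟩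
  obtain ⟨r, hr⟩ : ∃ r, r = m % K := ⟨_, rfl⟩
  rw [← hq, ← hr] at h1
  rw [← hr] at hr2 hr3
  have hbt : bt K m = 2 * (q : ℤ) + vt K r := by
    unfold bt
    rw [← hq, ← hr]
  rw [hbt] at hbig
  have hq1 : 1 ≤ q := by
    rcases Nat.eq_zero_or_pos q with h3 | h3
    · rw [h3, Nat.mul_zero] at h1
      omega
    · exact h3
  by_cases hev : K % 2 = 0 ∧ r + 4 = K
  · obtain ⟨hev, hr4⟩ := hev
    have hv : vt K r = -1 := by
      unfold vt
      rw [if_neg (by omega), if_neg (by omega), if_neg (by omega), if_neg (by omega),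
        if_pos hr4]
    rw [hv] at hbig
    refine end_even (by omega) h.cr hAS hA hAd hdA (q := q) (by omega) hq1 (by linarith) ?_
    intro hK10 V' G' S' hS' hc
    have h2 := dirac_num (M := K - 1) (by omega) (hM hev hK10 V' G' S' hS') (by omega)
    rw [Nat.cast_sub (by omega : 1 ≤ K)] at h2
    push_cast at h2
    linarith
  · have hv : 0 ≤ vt K r := by
      unfold vt
      rw [if_neg (by omega)]
      split_ifs with h2 h3 h4 h5 h6
      · norm_num
      · norm_num
      · norm_num
      · norm_num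
      · exact absurd ⟨by omega, h6⟩ hev
      · norm_num
    refine end_pos (by omega) h.cr hAS hA hAd hdA (q := q) (by omega) (by linarith)

end Pool.Agent.OW
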