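import Pool.Agent.Lib_helper92.OW.Cs

/-!
# Charges: the number of low vertices against the excess of the others

The vertices of degree at least `K + 2` send their excess to their low neighbours.
-/

set_option autoImplicit false
set_option linter.unusedSectionVars false
set_option linter.unusedVariables false

open scoped Classical
open Finset
open Pool.Agent.O2 (PC Cb CrOn pr ms dg nd)
open Pool.Agent.O3 (con hit Clq)

namespace Pool.Agent.OW

variable {V : Type}

/-- the structure of the low vertices (degree `K`) -/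
structure Lw (G : SimpleGraph V) (S : Finset V) (K : ℕ) : Prop where
  cr : CrOn G S K
  c1 : ∀ x ∈ S, dg G S x = K → ∀ v ∈ S, G.Adj x v → ¬ Tw G S x v →
    dg G S v ≤ K + (tws G S x).card →
    (dg G S v = K → (tws G S v).card ≤ (tws G S x).card) → Clq G (cn G S v x)
  c2 : ∀ x ∈ S, dg G S x = K → ∀ v ∈ S, G.Adj x v → Clq G (cn G S v x) →
    ∀ y ∈ S, G.Adj x y → y ≠ v → dg G S y = K → Tw G S x y
  c3 : ∀ x ∈ S, dg G S x = K → ∀ v ∈ S, G.Adj x v → ∀ v' ∈ S, G.Adj x v' → v ≠ v' →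
    Clq G (cn G S v x) → Clq G (cn G S v' x) → False
  c4 : ∀ x ∈ S, dg G S x = K → 1 ≤ (tws G S x).card → ∀ v ∈ S, G.Adj x v →
    Clq G (cn G S v x) → (tws G S x).card + 4 ≤ K
  c4' : ∀ x ∈ S, dg G S x = K → (tws G S x).card + 3 ≤ K
  c5 : ∀ x ∈ S, dg G S x = K → ∀ v ∈ S, dg G S v = K → G.Adj x v →
    (tws G S x).card = 0 → (tws G S v).card = 0 →
    Clq G (cn G S v x) → Clq G (cn G S x v) →
    ∀ y ∈ S, G.Adj x y → y ≠ v → K + 2 ≤ dg G S y

/-- the low vertices -/
noncomputable def lo (G : SimpleGraph V) (S : Finset V) (K : ℕ) : Finset V :=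
  S.filter fun v => dg G S v = K

/-- the number of low neighbours -/
noncomputable def ll (G : SimpleGraph V) (S : Finset V) (K : ℕ) (y : V) : ℕ :=
  dg G (lo G S K) y

/-- what `y` sends to each low neighbour -/
noncomputable def wt (G : SimpleGraph V) (S : Finset V) (K : ℕ) (y : V) : ℚ :=
  if K + 2 ≤ dg G S y then ((dg G S y : ℚ) - K - 1) / ll G S K y else 0

/-- what the low vertex `x` receives -/
noncomputable def sg (G : SimpleGraph V) (S : Finset V) (K : ℕ) (x : V) : ℚ :=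
  ∑ y ∈ S.filter (fun y => G.Adj x y), wt G S K y

theorem wt_nonneg (G : SimpleGraph V) (S : Finset V) (K : ℕ) (y : V) : 0 ≤ wt G S K y := by
  unfold wt
  split_ifs with h
  · apply div_nonneg
    · have : ((K + 2 : ℕ) : ℚ) ≤ dg G S y := by exact_mod_cast h
      push_cast at this
      linarith
    · positivity
  · exact le_rfl

theorem sg_nonneg (G : SimpleGraph V) (S : Finset V) (K : ℕ) (x : V) : 0 ≤ sg G S K x :=
  sum_nonneg fun y _ => wt_nonneg G S K y

theorem ll_mul_wt (G : SimpleGraph V) (S : Finset V) (K : ℕ) (y : V) (h : K ≤ dg G S y) :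
    (ll G S K y : ℚ) * wt G S K y ≤ if dg G S y = K then 0 else (dg G S y : ℚ) - K - 1 := by
  unfold wt
  by_cases h1 : K + 2 ≤ dg G S y
  · rw [if_pos h1, if_neg (by omega)]
    rcases Nat.eq_zero_or_pos (ll G S K y) with h2 | h2
    · rw [h2]
      have : ((K + 2 : ℕ) : ℚ) ≤ dg G S y := by exact_mod_cast h1
      push_cast at this ⊢
      linarith
    · have h3 : (ll G S K y : ℚ) ≠ 0 := by positivity
      rw [mul_div_cancel₀ _ h3]
  · rw [if_neg h1, mul_zero]
    split_ifs with h2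
    · exact le_rfl
    · have : ((K + 1 : ℕ) : ℚ) ≤ dg G S y := by
        have : K + 1 ≤ dg G S y := by omega
        exact_mod_cast this
      push_cast at this
      linarith

/-- the total charge -/
theorem df_le_sum {G : SimpleGraph V} {S : Finset V} {K : ℕ} (h : CrOn G S K) :
    (df G K S : ℚ) ≤ ∑ x ∈ lo G S K, (1 - sg G S K x) := by
  have h1 : ∑ x ∈ lo G S K, sg G S K x = ∑ y ∈ S, (ll G S K y : ℚ) * wt G S K y := by
    have h2 : ∀ x, sg G S K x = ∑ y ∈ S, if G.Adj x y then wt G S K y else 0 := by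
      intro x
      unfold sg
      rw [sum_filter]
    simp_rw [h2]
    rw [sum_comm]
    apply sum_congr rfl
    intro y _
    have h3 : ∑ x ∈ lo G S K, (if G.Adj x y then wt G S K y else 0) =
        ∑ x ∈ (lo G S K).filter (fun x => G.Adj y x), wt G S K y := by
      rw [sum_filter]
      apply sum_congr rfl
      intro x _
      simp only [SimpleGraph.adj_comm G y x]
    rw [h3, sum_const, nsmul_eq_mul]
    rfl
  have h2 : (df G K S : ℚ) = ∑ y ∈ S, ((K : ℚ) + 1 - dg G S y) := by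
    unfold df
    rw [Pool.Agent.O2.pr_sum, sum_sub_distrib, sum_const, nsmul_eq_mul]
    push_cast
    ring
  have h0 : ∑ x ∈ lo G S K, (1 - sg G S K x) =
      ∑ x ∈ lo G S K, (1 : ℚ) - ∑ x ∈ lo G S K, sg G S K x := sum_sub_distrib _ _
  rw [h2, h0, h1]
  have h3 : ∑ x ∈ lo G S K, (1 : ℚ) = ∑ y ∈ S, if dg G S y = K then (1 : ℚ) else 0 := by
    unfold lo
    rw [sum_filter]
  rw [h3, ← sum_sub_distrib]
  apply sum_le_sum
  intro y hy
  have h4 := h.dg_ge hy
  have h5 := ll_mul_wt G S K y h4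
  split_ifs at h5 ⊢ with h6
  · rw [h6]
    have h7 := wt_nonneg G S K y
    have h8 : (0 : ℚ) ≤ (ll G S K y : ℚ) * wt G S K y := by positivity
    linarith
  · linarith

theorem mem_tws {G : SimpleGraph V} {S : Finset V} {x y : V} :
    y ∈ tws G S x ↔ y ∈ S ∧ y ≠ x ∧ Tw G S x y := by
  unfold tws
  rw [mem_filter]

/-- lower bound for what `y` sends -/
theorem wt_ge {G : SimpleGraph V} {S : Finset V} {K a c : ℕ} {x y : V} (hx : x ∈ lo G S K)
    (hxy : G.Adj x y) (ha : 2 ≤ a) (hd : K + a ≤ dg G S y) (hc : ll G S K y + c ≤ dg G S y)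
    (hcK : c ≤ K + 1) : ((a : ℚ) - 1) / ((K : ℚ) + a - c) ≤ wt G S K y := by
  have hl : 1 ≤ ll G S K y := by
    unfold ll dg
    exact card_pos.2 ⟨x, mem_filter.2 ⟨hx, hxy.symm⟩⟩
  unfold wt
  rw [if_pos (by omega)]
  obtain ⟨f, hf⟩ := Nat.exists_eq_add_of_le hd
  have hl' : (0 : ℚ) < ll G S K y := by
    have : (1 : ℚ) ≤ ll G S K y := by exact_mod_cast hl
    linarith
  have hcK' : (c : ℚ) ≤ K + 1 := by exact_mod_cast hcK
  have ha' : (2 : ℚ) ≤ a := by exact_mod_cast ha
  have hlc : (ll G S K y : ℚ) + c ≤ K + a + f := by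
    rw [hf] at hc
    exact_mod_cast hc
  have hpos : (0 : ℚ) < (K : ℚ) + a - c := by linarith
  rw [div_le_div_iff₀ hpos hl', hf]
  push_cast
  have hf' : (0 : ℚ) ≤ f := by positivity
  nlinarith [mul_nonneg hf' (sub_nonneg.2 hcK'), mul_le_mul_of_nonneg_left hlc
    (by linarith : (0 : ℚ) ≤ (a : ℚ) - 1)]

/-- lower bound for what `x` receives -/
theorem sg_ge {G : SimpleGraph V} {S : Finset V} {K m : ℕ} {x : V} {Y : Finset V} {q : ℚ}
    (hY : ∀ y ∈ Y, y ∈ S ∧ G.Adj x y ∧ q ≤ wt G S K y) (hm : m ≤ Y.card) (hq : 0 ≤ q) :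
    (m : ℚ) * q ≤ sg G S K x := by
  have h1 : Y ⊆ S.filter fun y => G.Adj x y := fun y hy =>
    mem_filter.2 ⟨(hY y hy).1, (hY y hy).2.1⟩
  have h2 : ∑ y ∈ Y, wt G S K y ≤ sg G S K x :=
    sum_le_sum_of_subset_of_nonneg h1 fun y _ _ => wt_nonneg G S K y
  have h3 : ∑ y ∈ Y, q ≤ ∑ y ∈ Y, wt G S K y := sum_le_sum fun y hy => (hY y hy).2.2
  rw [sum_const, nsmul_eq_mul] at h3
  have h4 : (m : ℚ) * q ≤ (Y.card : ℚ) * q := by
    apply mul_le_mul_of_nonneg_right _ hq
    exact_mod_cast hm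
  linarith


theorem tws_low {G : SimpleGraph V} {S : Finset V} {x y : V} (hx : x ∈ S) (hy : y ∈ S)
    (h : Tw G S x y) : dg G S y = dg G S x := by
  have h1 : ∀ {x y : V}, x ∈ S → y ∈ S → Tw G S x y → dg G S y ≤ dg G S x := by
    intro x y hx hy h
    unfold dg
    apply card_le_card_of_injOn (fun c => if c = x then y else c)
    · intro c hc
      obtain ⟨h2, h3⟩ := mem_filter.1 (mem_coe.1 hc)
      by_cases hcx : c = x
      · simp only [hcx, if_true]
        exact mem_coe.2 (mem_filter.2 ⟨hy, h.1⟩)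
      · simp only [hcx, if_false]
        exact mem_coe.2 (mem_filter.2 ⟨h2, (h.2 c h2 hcx (fun e => G.irrefl (e ▸ h3))).2 h3⟩)
    · intro c hc d hd hcd
      obtain ⟨h2, h3⟩ := mem_filter.1 (mem_coe.1 hc)
      obtain ⟨h4, h5⟩ := mem_filter.1 (mem_coe.1 hd)
      have hcy : c ≠ y := fun e => G.irrefl (e ▸ h3)
      have hdy : d ≠ y := fun e => G.irrefl (e ▸ h5)
      by_cases hcx : c = x <;> by_cases hdx : d = x
      · rw [hcx, hdx]
      · simp only [hcx, hdx, if_true, if_false] at hcd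
        exact absurd hcd.symm hdy
      · simp only [hcx, hdx, if_true, if_false] at hcd
        exact absurd hcd hcy
      · simpa only [hcx, hdx, if_false] using hcd
  exact le_antisymm (h1 hx hy h) (h1 hy hx h.symm)

theorem tw_trans {G : SimpleGraph V} {S : Finset V} {x y z : V} (hx : x ∈ S) (hy : y ∈ S)
    (hz : z ∈ S) (hxz : x ≠ z) (h : Tw G S x y) (h' : Tw G S y z) : Tw G S x z := by
  have hxy := h.1.ne
  have hyz := h'.1.ne
  refine ⟨(h.2 z hz hxz.symm hyz.symm).2 h'.1, fun c hc h1 h2 => ?_⟩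
  by_cases hcy : c = y
  · subst hcy
    exact ⟨fun _ => h'.1.symm, fun _ => h.1⟩
  · exact (h.2 c hc h1 hcy).trans (h'.2 c hc hcy h2)

/-- the cluster of `x` -/
noncomputable def clu (G : SimpleGraph V) (S : Finset V) (x : V) : Finset V :=
  S.filter fun y => y = x ∨ Tw G S x y

theorem clu_eq {G : SimpleGraph V} {S : Finset V} {x y : V} (hx : x ∈ S) (hy : y ∈ S)
    (h : y = x ∨ Tw G S x y) : clu G S x = clu G S y := by
  rcases h with rfl | h
  · rfl
  · ext z
    unfold clu
    rw [mem_filter, mem_filter]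
    refine and_congr_right fun hz => ?_
    constructor
    · rintro (rfl | h')
      · exact Or.inr h.symm
      · by_cases hzy : z = y
        · exact Or.inl hzy
        · exact Or.inr (tw_trans hy hx hz (Ne.symm hzy) h.symm h')
    · rintro (rfl | h')
      · exact Or.inr h
      · by_cases hzx : z = x
        · exact Or.inl hzx
        · exact Or.inr (tw_trans hx hy hz (Ne.symm hzx) h h')

theorem clu_card {G : SimpleGraph V} {S : Finset V} {x : V} (hx : x ∈ S) :
    (clu G S x).card = (tws G S x).card + 1 := by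
  have h1 : clu G S x = insert x (tws G S x) := by
    ext y
    unfold clu tws
    rw [mem_insert, mem_filter, mem_filter]
    constructor
    · rintro ⟨h1, h2 | h2⟩
      · exact Or.inl h2
      · by_cases hyx : y = x
        · exact Or.inl hyx
        · exact Or.inr ⟨h1, hyx, h2⟩
    · rintro (rfl | ⟨h1, -, h2⟩)
      · exact ⟨hx, Or.inl rfl⟩
      · exact ⟨h1, Or.inr h2⟩
  rw [h1, card_insert_of_notMem]
  intro h2
  exact (mem_filter.1 h2).2.1 rfl

theorem sg_tw {G : SimpleGraph V} {S : Finset V} {K : ℕ} {x y : V} (hx : x ∈ S) (hy : y ∈ S)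
    (hlx : dg G S x = K) (h : Tw G S x y) : sg G S K y = sg G S K x := by
  have key : ∀ {x y : V}, x ∈ S → y ∈ S → dg G S x = K → Tw G S x y →
      sg G S K y ≤ sg G S K x := by
    intro x y hx hy hlx h
    unfold sg
    have h1 : ∑ z ∈ S.filter (fun z => G.Adj y z), wt G S K z =
        ∑ z ∈ (S.filter (fun z => G.Adj y z)).erase x, wt G S K z := by
      rw [← add_sum_erase _ _ (mem_filter.2 ⟨hx, h.1.symm⟩ : x ∈ S.filter (fun z => G.Adj y z))]
      have h2 : wt G S K x = 0 := by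
        unfold wt
        rw [if_neg (by omega)]
      rw [h2, zero_add]
    rw [h1]
    apply sum_le_sum_of_subset_of_nonneg
    · intro z hz
      obtain ⟨hzx, hz'⟩ := mem_erase.1 hz
      obtain ⟨hzS, hyz⟩ := mem_filter.1 hz'
      exact mem_filter.2 ⟨hzS, (h.2 z hzS hzx hyz.ne').2 hyz⟩
    · intro z _ _
      exact wt_nonneg G S K z
  have hly : dg G S y = K := by rw [tws_low hx hy h, hlx]
  exact le_antisymm (key hx hy hlx h) (key hy hx hly h.symm)

/-- the neighbours of `x` other than its twins and `v` -/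
noncomputable def ou (G : SimpleGraph V) (S : Finset V) (x : V) : Finset V :=
  (S.filter fun y => G.Adj x y) \ tws G S x

theorem ou_card {G : SimpleGraph V} {S : Finset V} {x : V} :
    (ou G S x).card + (tws G S x).card = dg G S x := by
  unfold ou dg
  rw [card_sdiff_of_subset]
  · have h1 : (tws G S x).card ≤ (S.filter fun y => G.Adj x y).card := by
      apply card_le_card
      intro y hy
      obtain ⟨h1, -, h2⟩ := mem_tws.1 hy
      exact mem_filter.2 ⟨h1, h2.1⟩
    omega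
  · intro y hy
    obtain ⟨h1, -, h2⟩ := mem_tws.1 hy
    exact mem_filter.2 ⟨h1, h2.1⟩

theorem mem_ou {G : SimpleGraph V} {S : Finset V} {x y : V} :
    y ∈ ou G S x ↔ y ∈ S ∧ G.Adj x y ∧ ¬ Tw G S x y := by
  unfold ou
  rw [mem_sdiff, mem_filter, mem_tws]
  constructor
  · rintro ⟨⟨h1, h2⟩, h3⟩
    exact ⟨h1, h2, fun h4 => h3 ⟨h1, h2.ne', h4⟩⟩
  · rintro ⟨h1, h2, h3⟩
    exact ⟨⟨h1, h2⟩, fun h4 => h3 h4.2.2⟩

theorem mem_cn {G : SimpleGraph V} {S : Finset V} {v x y : V} :
    y ∈ cn G S v x ↔ y = x ∨ (y ≠ v ∧ y ∈ S ∧ G.Adj x y) := by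
  unfold cn
  rw [mem_insert, mem_erase, mem_filter]

/-- two low adjacent vertices which are not twins -/
theorem Lw.adj {G : SimpleGraph V} {S : Finset V} {K : ℕ} (h : Lw G S K) {x v : V} (hx : x ∈ S)
    (hlx : dg G S x = K) (hv : v ∈ S) (hlv : dg G S v = K) (hxv : G.Adj x v)
    (hnt : ¬ Tw G S x v) (hle : (tws G S v).card ≤ (tws G S x).card) :
    Clq G (cn G S v x) ∧ (tws G S v).card = 0 := by
  have h1 := h.c1 x hx hlx v hv hxv hnt (by omega) (fun _ => hle)
  refine ⟨h1, ?_⟩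
  by_contra h2
  obtain ⟨v', hv'⟩ := card_pos.1 (Nat.pos_of_ne_zero h2)
  obtain ⟨hv'S, hv'v, hvv'⟩ := mem_tws.1 hv'
  have hxv' : x ≠ v' := fun e => hnt (e ▸ hvv'.symm)
  have h3 : G.Adj x v' := ((hvv'.2 x hx hxv.ne hxv').1 hxv.symm).symm
  have h4 := h.c2 x hx hlx v hv hxv h1 v' hv'S h3 hv'v (by rw [tws_low hv hv'S hvv', hlv])
  exact hnt (tw_trans hx hv'S hv hxv.ne h4 hvv'.symm)

/-- a cluster with an exceptional neighbour -/
theorem Lw.exc {G : SimpleGraph V} {S : Finset V} {K : ℕ} (h : Lw G S K) {x v : V} (hx : x ∈ S)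
    (hlx : dg G S x = K) (ht : 1 ≤ (tws G S x).card) (hv : v ∈ S) (hxv : G.Adj x v)
    (hc : Clq G (cn G S v x)) (hnt : ¬ Tw G S x v) (hK : 7 ≤ K) : 1 ≤ sg G S K x := by
  set t := (tws G S x).card + 1 with ht'
  have hc4 := h.c4 x hx hlx ht v hv hxv hc
  have hY : ((ou G S x).erase v).card + t = K := by
    rw [card_erase_of_mem (mem_ou.2 ⟨hv, hxv, hnt⟩)]
    have := ou_card (G := G) (S := S) (x := x)
    have h2 : 0 < (ou G S x).card := card_pos.2 ⟨v, mem_ou.2 ⟨hv, hxv, hnt⟩⟩
    omega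
  have hxlo : x ∈ lo G S K := mem_filter.2 ⟨hx, hlx⟩
  -- the vertices of the clique outside the cluster are not low
  have hnl : ∀ y ∈ (ou G S x).erase v, dg G S y ≠ K := by
    intro y hy hly
    obtain ⟨hyv, hyo⟩ := mem_erase.1 hy
    obtain ⟨hyS, hxy, hyt⟩ := mem_ou.1 hyo
    exact hyt (h.c2 x hx hlx v hv hxv hc y hyS hxy hyv hly)
  have hdeg : ∀ y ∈ (ou G S x).erase v, K + t ≤ dg G S y := by
    intro y hy
    obtain ⟨hyv, hyo⟩ := mem_erase.1 hy
    obtain ⟨hyS, hxy, hyt⟩ := mem_ou.1 hyo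
    by_contra hlt
    exact h.c3 x hx hlx v hv hxv y hyS hxy (Ne.symm hyv) hc
      (h.c1 x hx hlx y hyS hxy hyt (by omega) (fun h2 => absurd h2 (hnl y hy)))
  have hll : ∀ y ∈ (ou G S x).erase v, ll G S K y + (K - t - 1) ≤ dg G S y := by
    intro y hy
    have h3 : dg G (((ou G S x).erase v).erase y) y = K - t - 1 := by
      unfold dg
      rw [filter_true_of_mem, card_erase_of_mem hy]
      · omega
      · intro z hz
        obtain ⟨hzy, hz'⟩ := mem_erase.1 hz
        obtain ⟨hyv, hyo⟩ := mem_erase.1 hy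
        obtain ⟨hyS, hxy, hyt⟩ := mem_ou.1 hyo
        obtain ⟨hzv, hzo⟩ := mem_erase.1 hz'
        obtain ⟨hzS, hxz, hzt⟩ := mem_ou.1 hzo
        exact hc y (mem_cn.2 (Or.inr ⟨hyv, hyS, hxy⟩)) z (mem_cn.2 (Or.inr ⟨hzv, hzS, hxz⟩))
          (Ne.symm hzy)
    have h4 : Disjoint (lo G S K) (((ou G S x).erase v).erase y) := by
      rw [disjoint_left]
      intro z hz hz'
      exact hnl z (mem_of_mem_erase hz') (mem_filter.1 hz).2
    have h5 : dg G (lo G S K ∪ ((ou G S x).erase v).erase y) y ≤ dg G S y := by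
      apply Pool.Agent.O2.dg_mono
      intro z hz
      rcases mem_union.1 hz with hz | hz
      · exact (mem_filter.1 hz).1
      · exact (mem_ou.1 (mem_of_mem_erase (mem_of_mem_erase hz))).1
    rw [Pool.Agent.O2.dg_union h4, h3] at h5
    exact h5
  have h6 := sg_ge (G := G) (S := S) (K := K) (m := K - t) (x := x) (Y := (ou G S x).erase v)
    (q := ((t : ℚ) - 1) / ((K : ℚ) + t - (K - t - 1 : ℕ))) (by
      intro y hy
      obtain ⟨hyv, hyo⟩ := mem_erase.1 hy
      obtain ⟨hyS, hxy, hyt⟩ := mem_ou.1 hyo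
      exact ⟨hyS, hxy, wt_ge hxlo hxy (by omega) (hdeg y hy) (hll y hy) (by omega)⟩)
    (by omega) (by
      apply div_nonneg
      · have : (1 : ℚ) ≤ t := by exact_mod_cast (by omega : 1 ≤ t)
        linarith
      · have : ((K - t - 1 : ℕ) : ℚ) ≤ K := by exact_mod_cast (by omega : K - t - 1 ≤ K)
        have : (0 : ℚ) ≤ t := by positivity
        linarith)
  refine le_trans ?_ h6
  have e1 : ((K - t - 1 : ℕ) : ℚ) = (K : ℚ) - t - 1 := by
    have : K - t - 1 + (t + 1) = K := by omega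
    have h7 : ((K - t - 1 : ℕ) : ℚ) + (t + 1) = K := by exact_mod_cast this
    linarith
  have e2 : ((K - t : ℕ) : ℚ) = (K : ℚ) - t := by
    have : K - t + t = K := by omega
    have h7 : ((K - t : ℕ) : ℚ) + t = K := by exact_mod_cast this
    linarith
  rw [e1, e2]
  have h8 : (K : ℚ) + t - (K - t - 1) = 2 * t + 1 := by ring
  have h9 : (2 : ℚ) ≤ t := by exact_mod_cast (by omega : 2 ≤ t)
  have h10 : (t : ℚ) + 3 ≤ K := by exact_mod_cast (by omega : t + 3 ≤ K)
  have h11 : (7 : ℚ) ≤ K := by exact_mod_cast hK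
  rw [h8, ← mul_div_assoc, le_div_iff₀ (by linarith)]
  nlinarith [mul_nonneg (sub_nonneg.2 h9) (sub_nonneg.2 h10)]

/-- a pair of low singletons -/
theorem Lw.pair {G : SimpleGraph V} {S : Finset V} {K : ℕ} (h : Lw G S K) {x v : V} (hx : x ∈ S)
    (hlx : dg G S x = K) (hv : v ∈ S) (hlv : dg G S v = K) (hxv : G.Adj x v)
    (hnt : ¬ Tw G S x v) (htx : (tws G S x).card = 0) (htv : (tws G S v).card = 0) (hK : 7 ≤ K) :
    1 ≤ sg G S K x := by
  have hc := (h.adj hx hlx hv hlv hxv hnt (by omega)).1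
  have hc' := (h.adj hv hlv hx hlx hxv.symm (fun h2 => hnt h2.symm) (by omega)).1
  have h5 := h.c5 x hx hlx v hv hlv hxv htx htv hc hc'
  have hxlo : x ∈ lo G S K := mem_filter.2 ⟨hx, hlx⟩
  set Y := (S.filter fun y => G.Adj x y).erase v with hYd
  have hYm : ∀ y ∈ Y, y ≠ v ∧ y ∈ S ∧ G.Adj x y := fun y hy =>
    ⟨(mem_erase.1 hy).1, mem_filter.1 (mem_of_mem_erase hy)⟩
  have hY : Y.card + 1 = K := by
    rw [hYd, card_erase_of_mem (mem_filter.2 ⟨hv, hxv⟩)]
    have h9 : (S.filter fun y => G.Adj x y).card = K := hlx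
    change (S.filter fun y => G.Adj x y).card - 1 + 1 = K
    rw [h9]
    omega
  have hll : ∀ y ∈ Y, ll G S K y + (K - 2) ≤ dg G S y := by
    intro y hy
    have h3 : dg G (Y.erase y) y = K - 2 := by
      unfold dg
      rw [filter_true_of_mem, card_erase_of_mem hy]
      · omega
      · intro z hz
        obtain ⟨hzy, hz'⟩ := mem_erase.1 hz
        exact hc y (mem_cn.2 (Or.inr (hYm y hy))) z (mem_cn.2 (Or.inr (hYm z hz'))) (Ne.symm hzy)
    have h4 : Disjoint (lo G S K) (Y.erase y) := by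
      rw [disjoint_left]
      intro z hz hz'
      obtain ⟨h6, h7, h8⟩ := hYm z (mem_of_mem_erase hz')
      have h9 := h5 z h7 h8 h6
      have := (mem_filter.1 hz).2
      omega
    have h6 : dg G (lo G S K ∪ Y.erase y) y ≤ dg G S y := by
      apply Pool.Agent.O2.dg_mono
      intro z hz
      rcases mem_union.1 hz with hz | hz
      · exact (mem_filter.1 hz).1
      · exact (hYm z (mem_of_mem_erase hz)).2.1
    rw [Pool.Agent.O2.dg_union h4, h3] at h6
    exact h6
  have h6 := sg_ge (G := G) (S := S) (K := K) (m := K - 1) (x := x) (Y := Y)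
    (q := (((2 : ℕ) : ℚ) - 1) / ((K : ℚ) + (2 : ℕ) - (K - 2 : ℕ))) (by
      intro y hy
      obtain ⟨h7, h8, h9⟩ := hYm y hy
      exact ⟨h8, h9, wt_ge hxlo h9 le_rfl (h5 y h8 h9 h7) (hll y hy) (by omega)⟩)
    (by omega) (by
      apply div_nonneg
      · norm_num
      · have : ((K - 2 : ℕ) : ℚ) ≤ K := by exact_mod_cast (by omega : K - 2 ≤ K)
        push_cast
        linarith)
  refine le_trans ?_ h6
  have e1 : ((K - 2 : ℕ) : ℚ) = (K : ℚ) - 2 := by
    have : K - 2 + 2 = K := by omega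
    have h7 : ((K - 2 : ℕ) : ℚ) + 2 = K := by exact_mod_cast this
    linarith
  have e2 : ((K - 1 : ℕ) : ℚ) = (K : ℚ) - 1 := by
    have : K - 1 + 1 = K := by omega
    have h7 : ((K - 1 : ℕ) : ℚ) + 1 = K := by exact_mod_cast this
    linarith
  rw [e1, e2]
  have h8 : (K : ℚ) + (2 : ℕ) - (K - 2) = 4 := by push_cast; ring
  have h11 : (7 : ℚ) ≤ K := by exact_mod_cast hK
  rw [h8]
  push_cast
  linarith

/-- a vertex with small charge: the cluster is paid up to one -/
theorem Lw.share {G : SimpleGraph V} {S : Finset V} {K : ℕ} (h : Lw G S K) (hK : 7 ≤ K) {x : V}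
    (hx : x ∈ S) (hlx : dg G S x = K) (hs : sg G S K x < 1) :
    (1 - sg G S K x) * (clu G S x).card ≤ 1 := by
  rw [clu_card hx]
  rcases Nat.eq_zero_or_pos (tws G S x).card with h0 | ht
  · rw [h0]
    have := sg_nonneg G S K x
    push_cast
    linarith
  set t := (tws G S x).card + 1 with ht'
  have hc4 := h.c4' x hx hlx
  have hxlo : x ∈ lo G S K := mem_filter.2 ⟨hx, hlx⟩
  -- no exceptional neighbour
  have hne : ∀ v ∈ ou G S x, ¬ Clq G (cn G S v x) := by
    intro v hv hc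
    obtain ⟨hvS, hxv, hvt⟩ := mem_ou.1 hv
    have := h.exc hx hlx ht hvS hxv hc hvt hK
    linarith
  have hdeg : ∀ y ∈ ou G S x, K + t ≤ dg G S y := by
    intro y hy
    obtain ⟨hyS, hxy, hyt⟩ := mem_ou.1 hy
    by_contra hlt
    apply hne y hy
    refine h.c1 x hx hlx y hyS hxy hyt (by omega) fun hly => ?_
    by_contra hlt2
    have h2 := (h.adj hyS hly hx hlx hxy.symm (fun h3 => hyt h3.symm) (by omega)).2
    omega
  have hY : (ou G S x).card + t = K + 1 := by
    have := ou_card (G := G) (S := S) (x := x)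
    omega
  have h6 := sg_ge (G := G) (S := S) (K := K) (m := K + 1 - t) (x := x) (Y := ou G S x)
    (q := ((t : ℚ) - 1) / ((K : ℚ) + t - (0 : ℕ))) (by
      intro y hy
      obtain ⟨hyS, hxy, hyt⟩ := mem_ou.1 hy
      refine ⟨hyS, hxy, wt_ge hxlo hxy (by omega) (hdeg y hy) ?_ (by omega)⟩
      have h7 : ll G S K y ≤ dg G S y := Pool.Agent.O2.dg_mono (filter_subset _ _) y
      omega)
    (by omega) (by
      apply div_nonneg
      · have : (1 : ℚ) ≤ t := by exact_mod_cast (by omega : 1 ≤ t)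
        linarith
      · have h7 : (0 : ℚ) ≤ t := by positivity
        have h8 : (0 : ℚ) ≤ K := by positivity
        push_cast
        linarith)
  have e2 : ((K + 1 - t : ℕ) : ℚ) = (K : ℚ) + 1 - t := by
    have : K + 1 - t + t = K + 1 := by omega
    have h7 : ((K + 1 - t : ℕ) : ℚ) + t = K + 1 := by exact_mod_cast this
    linarith
  rw [e2] at h6
  have h9 : (2 : ℚ) ≤ t := by exact_mod_cast (by omega : 2 ≤ t)
  have h10 : (t : ℚ) + 2 ≤ K := by exact_mod_cast (by omega : t + 2 ≤ K)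
  have h11 : (7 : ℚ) ≤ K := by exact_mod_cast hK
  have h12 : ((t : ℚ) - 1) / t ≤ sg G S K x := by
    refine le_trans ?_ h6
    push_cast
    rw [sub_zero, ← mul_div_assoc, div_le_div_iff₀ (by linarith) (by linarith)]
    have h13 : (0 : ℚ) ≤ (K : ℚ) * (t - 1) - t * t := by
      nlinarith [mul_nonneg (sub_nonneg.2 h9) (sub_nonneg.2 h10)]
    nlinarith [mul_nonneg (by linarith : (0 : ℚ) ≤ (t : ℚ) - 1) h13]
  have h13 : 1 - sg G S K x ≤ 1 / t := by
    have : ((t : ℚ) - 1) / t = 1 - 1 / t := by field_simp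
    linarith
  calc (1 - sg G S K x) * (t : ℕ) ≤ 1 / t * t :=
        mul_le_mul_of_nonneg_right h13 (by positivity)
    _ = 1 := by field_simp

/-- the independent set of low vertices -/
theorem Lw.main {G : SimpleGraph V} {S : Finset V} {K : ℕ} (h : Lw G S K) (hK : 7 ≤ K) :
    ∃ A ⊆ S, (∀ x ∈ A, dg G S x = K) ∧ (∀ a ∈ A, ∀ b ∈ A, ¬ G.Adj a b) ∧
      df G K S ≤ A.card := by
  set B := (lo G S K).filter fun x => sg G S K x < 1 with hB
  have hBm : ∀ x, x ∈ B ↔ x ∈ S ∧ dg G S x = K ∧ sg G S K x < 1 := by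
    intro x
    rw [hB, mem_filter]
    unfold lo
    rw [mem_filter, and_assoc]
  -- adjacent vertices of B are twins
  have hadj : ∀ x ∈ B, ∀ v ∈ B, G.Adj x v → Tw G S x v := by
    have key : ∀ x ∈ B, ∀ v ∈ B, G.Adj x v → (tws G S v).card ≤ (tws G S x).card →
        Tw G S x v := by
      intro x hx v hv hxv hle
      obtain ⟨hxS, hlx, hsx⟩ := (hBm x).1 hx
      obtain ⟨hvS, hlv, hsv⟩ := (hBm v).1 hv
      by_contra hnt
      obtain ⟨h1, h2⟩ := h.adj hxS hlx hvS hlv hxv hnt hle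
      rcases Nat.eq_zero_or_pos (tws G S x).card with h0 | ht
      · have := h.pair hxS hlx hvS hlv hxv hnt h0 h2 hK
        linarith
      · have := h.exc hxS hlx ht hvS hxv h1 hnt hK
        linarith
    intro x hx v hv hxv
    rcases le_total (tws G S v).card (tws G S x).card with h1 | h1
    · exact key x hx v hv hxv h1
    · exact (key v hv x hx hxv.symm h1).symm
  -- representatives
  let pick : Finset V → V → V := fun s y => if hs : s.Nonempty then hs.choose else y
  have hself : ∀ x ∈ B, x ∈ clu G S x := fun x hx =>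
    mem_filter.2 ⟨((hBm x).1 hx).1, Or.inl rfl⟩
  have hpick : ∀ x ∈ B, pick (clu G S x) x ∈ clu G S x := by
    intro x hx
    have hne : (clu G S x).Nonempty := ⟨x, hself x hx⟩
    simp only [pick, hne, dif_pos]
    exact hne.choose_spec
  have hcluB : ∀ x ∈ B, ∀ y ∈ clu G S x, y ∈ B := by
    intro x hx y hy
    obtain ⟨hxS, hlx, hsx⟩ := (hBm x).1 hx
    obtain ⟨hyS, h1⟩ := mem_filter.1 hy
    rcases h1 with rfl | h1
    · exact hx
    · rw [hBm]
      exact ⟨hyS, by rw [tws_low hxS hyS h1, hlx], by rw [sg_tw hxS hyS hlx h1]; exact hsx⟩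
  have hsame : ∀ x ∈ B, ∀ y ∈ B, (y = x ∨ Tw G S x y) →
      pick (clu G S x) x = pick (clu G S y) y := by
    intro x hx y hy h1
    have h2 := clu_eq ((hBm x).1 hx).1 ((hBm y).1 hy).1 h1
    have hne : (clu G S y).Nonempty := ⟨y, hself y hy⟩
    simp only [pick, h2, hne, dif_pos]
  refine ⟨B.image fun x => pick (clu G S x) x, ?_, ?_, ?_, ?_⟩
  · intro a ha
    obtain ⟨x, hx, rfl⟩ := mem_image.1 ha
    exact (mem_filter.1 (hpick x hx)).1
  · intro a ha
    obtain ⟨x, hx, rfl⟩ := mem_image.1 ha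
    exact ((hBm _).1 (hcluB x hx _ (hpick x hx))).2.1
  · intro a ha b hb hab
    obtain ⟨x, hx, rfl⟩ := mem_image.1 ha
    obtain ⟨y, hy, rfl⟩ := mem_image.1 hb
    have hax := hpick x hx
    have hby := hpick y hy
    have haB := hcluB x hx _ hax
    have hbB := hcluB y hy _ hby
    have h1 := hadj _ haB _ hbB hab
    have h2 := hsame x hx _ haB (mem_filter.1 hax).2
    have h3 := hsame y hy _ hbB (mem_filter.1 hby).2
    have h4 := hsame _ haB _ hbB (Or.inr h1)
    rw [h2, h3, h4] at hab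
    exact G.irrefl hab
  · have h1 := df_le_sum h.cr
    have h2 : ∑ x ∈ lo G S K, (1 - sg G S K x) ≤ ∑ x ∈ B, (1 - sg G S K x) := by
      rw [← sum_filter_add_sum_filter_not (lo G S K) (fun x => sg G S K x < 1)]
      have h3 : ∑ x ∈ (lo G S K).filter (fun x => ¬ sg G S K x < 1), (1 - sg G S K x) ≤ 0 := by
        apply sum_nonpos
        intro x hx
        have := (mem_filter.1 hx).2
        linarith
      linarith
    have h3 : ∑ x ∈ B, (1 - sg G S K x) ≤ ((B.image fun x => pick (clu G S x) x).card : ℚ) := by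
      rw [← sum_fiberwise_of_maps_to (g := fun x => pick (clu G S x) x)
        (t := B.image fun x => pick (clu G S x) x) (fun x hx => mem_image_of_mem _ hx)]
      rw [card_eq_sum_ones]
      push_cast
      apply sum_le_sum
      intro a ha
      obtain ⟨x0, hx0, rfl⟩ := mem_image.1 ha
      obtain ⟨hx0S, hlx0, hsx0⟩ := (hBm x0).1 hx0
      have h4 : B.filter (fun x => pick (clu G S x) x = pick (clu G S x0) x0) ⊆ clu G S x0 := by
        intro x hx
        obtain ⟨hxB, h5⟩ := mem_filter.1 hx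
        obtain ⟨hxS, hlx, hsx⟩ := (hBm x).1 hxB
        have h6 := hpick x hxB
        rw [h5] at h6
        have h7 := hpick x0 hx0
        have h8 := clu_eq hxS (mem_filter.1 h6).1 (mem_filter.1 h6).2
        have h9 := clu_eq hx0S (mem_filter.1 h7).1 (mem_filter.1 h7).2
        rw [h9, ← h8]
        exact hself x hxB
      have h5 : ∑ x ∈ B.filter (fun x => pick (clu G S x) x = pick (clu G S x0) x0),
          (1 - sg G S K x) ≤ ∑ x ∈ clu G S x0, (1 - sg G S K x) := by
        apply sum_le_sum_of_subset_of_nonneg h4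
        intro x hx _
        have := ((hBm x).1 (hcluB x0 hx0 x hx)).2.2
        linarith
      have h6 : ∑ x ∈ clu G S x0, (1 - sg G S K x) = (clu G S x0).card * (1 - sg G S K x0) := by
        rw [← nsmul_eq_mul, ← sum_const]
        apply sum_congr rfl
        intro x hx
        obtain ⟨hxS, h7⟩ := mem_filter.1 hx
        rcases h7 with rfl | h7
        · rfl
        · rw [sg_tw hx0S hxS hlx0 h7]
      have h7 := h.share hK hx0S hlx0 hsx0
      rw [mul_comm] at h7
      linarith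
    have h4 : (df G K S : ℚ) ≤ ((B.image fun x => pick (clu G S x) x).card : ℚ) :=
      h1.trans (h2.trans h3)
    exact_mod_cast h4

end Pool.Agent.OW
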